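import Mathlib
import Pool.Agent.H20.TC.Defs

/-!
# Definitions: sums of motives with isolated Hodge numbers
-/

set_option autoImplicit false

namespace Pool.Agent.H20.TD

open Matrix Pool.Agent.H4.HW

variable {T B : Type} [Fintype T] [DecidableEq T] (M : Betti T B)

/-- the polarization of `M_b` is alternating -/
def Alternating (b : B) : Prop := ∀ s t, M.blk s = b → M.E t s = -M.E s t

/-- `C` is a map from the summand `M_c` to the summand `M_b`, extended by zero -/
def MapsTo {F : Type} [Field F] (b c : B) (C : Matrix T T F) : Prop :=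
  ∀ s t, C s t ≠ 0 → M.blk s = b ∧ M.blk t = c

/-- The motive `M_b` is polarised, with trivial endomorphisms, and the Hodge number `h^{a, w - a}`
(`a` the Hodge weight of the vector `v` of the Hodge basis, `w` the weight of `M_b`) is isolated. -/
structure Isolated (S : Set B) (b : B) (v : T) : Prop where
  /-- the form is symmetric or alternating -/
  sign : ∃ ε : ℚ, (ε = 1 ∨ ε = -1) ∧ ∀ s t, M.blk s = b → M.E t s = ε * M.E s t
  /-- the form is a morphism of Hodge structures `M_b ⊗ M_b → ℚ(-w)` -/
  polar : ∀ s t, M.blk s = b →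
    (M.Dᵀ * M.EF ℂ + M.EF ℂ * M.D) s t = M.wt b * M.EF ℂ s t
  simple : M.Simple b
  trivialEnd : M.TrivialEnd b
  mem : M.blk v = b
  /-- the Hodge number is one -/
  one : ∀ t, M.blk t = b → M.hdg t = M.hdg v → t = v
  /-- it is isolated in `M_b` -/
  isolated : ∀ r s t, M.blk r = b → M.blk s = b → M.blk t = b →
    M.hdg v + M.hdg r = M.hdg s + M.hdg t → s = v ∨ t = v ∨ M.hdg v + M.hdg r = M.wt b
  /-- its differences with the other Hodge weights of `M_b` do not occur in the other summands, unless
  both belong to `S` and have alternating polarizations -/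
  across : ∀ r s t, M.blk t = b → t ≠ v → M.blk r = M.blk s → M.blk r ≠ b →
    ¬ (Alternating M b ∧ M.blk r ∈ S ∧ Alternating M (M.blk r)) →
    M.hdg t - M.hdg v ≠ M.hdg r - M.hdg s

/-- The Betti realization of a motive: `o` spans a summand `ℚ(-1)`, and for `b ∈ S` the motive `M_b` has
an isolated Hodge number. -/
structure IsBetti (S : Set B) : Prop where
  /-- the Hodge decomposition is compatible with the decomposition `M = ⨁ M_b` -/
  basis : IsUnit M.P.det ∧ IsBlock M.blk M.P
  /-- the form is nondegenerate and compatible with the decomposition (on the summands `M_b` with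
  `b ∉ S` it is an arbitrary invertible matrix) -/
  form : IsUnit M.E.det ∧ IsBlock M.blk M.E
  tate : (∀ t, M.blk t = M.blk M.o → t = M.o) ∧ M.hdg M.o = 1 ∧ M.blk M.o ∉ S
  isolated : ∀ b ∈ S, ∃ v, Isolated M S b v
  /-- for different `b`, `c` in `S` with alternating polarizations there are no maps of Hodge structures
  `M_c → M_b(m)` where `m` is the half of the difference of the weights -/
  apart : ∀ b ∈ S, ∀ c ∈ S, b ≠ c → Alternating M b → Alternating M c → ∀ m : ℤ,
    2 * m = M.wt b - M.wt c → ∀ C : Matrix T T ℚ, MapsTo M b c C →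
    M.D * C.map (algebraMap ℚ ℂ) - C.map (algebraMap ℚ ℂ) * M.D = m • C.map (algebraMap ℚ ℂ) → C = 0

/-- For different `b`, `c` in `S` with alternating polarizations no map `M_c → M_b(m)` of the `ℓ`-adic
realizations commutes with an open subgroup of the Galois group, where `m` is the half of the
difference of the weights. -/
def Apart (S : Set B) {ℓ : ℕ} [Fact ℓ.Prime] {Γ : Type} [Group Γ] [TopologicalSpace Γ]
    (ρ : Γ →* Matrix T T ℚ_[ℓ]) : Prop :=
  ∀ b ∈ S, ∀ c ∈ S, b ≠ c → Alternating M b → Alternating M c → ∀ m : ℤ,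
    2 * m = M.wt b - M.wt c → ∀ U : Subgroup Γ, IsOpen (U : Set Γ) → ∀ C : Matrix T T ℚ_[ℓ],
    MapsTo M b c C → (∀ g ∈ U, ρ g * C = (ρ g M.o M.o) ^ m • (C * ρ g)) → C = 0

end Pool.Agent.H20.TD
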