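import Mathlib
import Pool.Agent.H4.HW.Base
import Pool.Agent.H20.TD.Defs

/-!
# The core theorem with conditions on some of the summands only
-/

set_option autoImplicit false
set_option linter.unusedSectionVars false

namespace Pool.Agent.H20.TD

open Matrix Pool.Agent.H4.HW

variable {k F T B : Type} [Field k] [CharZero k] [Field F] [CharZero F] [Algebra k F] [Fintype T]
  [DecidableEq T]

open scoped Classical in
/-- the projector on the sum of the blocks in `J` -/
noncomputable def pr (F : Type) [Field F] (blk : T → B) (J : Set B) : Matrix T T F :=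
  Matrix.diagonal fun s => if blk s ∈ J then 1 else 0

theorem pr_mul_apply (blk : T → B) (J : Set B) (Z : Matrix T T F) (s t : T) :
    (pr F blk J * Z) s t = open scoped Classical in if blk s ∈ J then Z s t else 0 := by
  rw [pr, diagonal_mul]
  split_ifs with h
  · rw [one_mul]
  · rw [zero_mul]

theorem pr_comm {blk : T → B} {J : Set B} {Z : Matrix T T F} (hZ : IsBlock blk Z) :
    pr F blk J * Z = Z * pr F blk J := by
  ext s t
  rw [pr, diagonal_mul, mul_diagonal]
  by_cases hst : blk s = blk t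
  · rw [hst, mul_comm]
  · rw [hZ s t hst, mul_zero, zero_mul]

theorem pr_sq (blk : T → B) (J : Set B) : pr F blk J * pr F blk J = pr F blk J := by
  rw [pr, diagonal_mul_diagonal]
  congr 1
  funext s
  split_ifs
  · rw [one_mul]
  · rw [zero_mul]

theorem pr_map (blk : T → B) (J : Set B) :
    (pr k blk J).map (algebraMap k F) = pr F blk J := by
  ext s t
  rw [pr, pr, map_apply, Matrix.diagonal_apply, Matrix.diagonal_apply]
  split_ifs <;> simp

theorem pr_rows {blk : T → B} {J : Set B} {b : B} (hb : b ∈ J) {E Z : Matrix T T F}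
    (hE : IsBlock blk E) (hZ : IsBlock blk Z) (s t : T) (hs : blk s = b) :
    ((pr F blk J * Z)ᵀ * E + E * (pr F blk J * Z)) s t = (Zᵀ * E + E * Z) s t := by
  rw [Matrix.add_apply, Matrix.add_apply]
  congr 1
  · rw [mul_apply, mul_apply]
    refine Finset.sum_congr rfl fun r _ => ?_
    rw [transpose_apply, transpose_apply, pr_mul_apply]
    by_cases hr : blk r = b
    · rw [if_pos (by rw [hr]; exact hb)]
    · rw [hZ r s (by rw [hs]; exact hr)]
      split_ifs <;> rfl
  · rw [mul_apply, mul_apply]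
    refine Finset.sum_congr rfl fun r _ => ?_
    rw [pr_mul_apply]
    by_cases hr : blk r = b
    · rw [if_pos (by rw [hr]; exact hb)]
    · rw [hE s r (by rw [hs]; exact fun h => hr h.symm), zero_mul, zero_mul]

/-- **The core theorem for the summands in `J`.** -/
theorem core_cut {blk : T → B} {b : B} {E : Matrix T T k} {ε : k}
    {𝔤 : Submodule k (Matrix T T k)} {Q : Matrix T T F} {h : T → F} {w : F} {o₁ : T} {J : Set B}
    (hb : b ∈ J) (eps : ε = 1 ∨ ε = -1) (blkE : IsBlock blk E) (unitE : IsUnit E.det)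
    (sym : ∀ s t, blk s = b → E t s = ε * E s t)
    (brack : ∀ Z ∈ 𝔤, ∀ Z' ∈ 𝔤, Z * Z' - Z' * Z ∈ 𝔤)
    (sim : ∀ Z ∈ 𝔤, ∃ c : k, ∀ s t, blk s = b → (Zᵀ * E + E * Z) s t = c * E s t)
    (abs : AbsIrr blk b 𝔤) (blkQ : IsBlock blk Q) (unitQ : IsUnit Q.det)
    (theta : Q * diagonal h * Q⁻¹ ∈ extk F 𝔤)
    (wt : ∀ s t, blk s = b → ((Q * diagonal h * Q⁻¹)ᵀ * E.map (algebraMap k F) +
      E.map (algebraMap k F) * (Q * diagonal h * Q⁻¹)) s t = w * E.map (algebraMap k F) s t)
    (ob : blk o₁ = b) (iso1 : ∀ t, blk t = b → h t = h o₁ → t = o₁)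
    (iso2 : ∀ r s t, blk r = b → blk s = b → blk t = b → h o₁ + h r = h s + h t →
      s = o₁ ∨ t = o₁ ∨ h o₁ + h r = w)
    (across : ∀ t r s, blk t = b → t ≠ o₁ → blk r = blk s → blk r ≠ b → blk r ∈ J →
      h t - h o₁ ≠ h r - h s) (X : Matrix T T k)
    (hX : ∀ s t, X s t ≠ 0 → blk s = b ∧ blk t = b) (hs : Xᵀ * E + E * X = 0) :
    ∃ Z ∈ 𝔤, pr k blk J * Z = X := by
  classical
  set p := pr k blk J with hp
  have hblk := abs.blkg
  let h' : T → F := fun t => if blk t ∈ J then h t else 0
  have hh' : ∀ t, blk t = b → h' t = h t := fun t ht => if_pos (by rw [ht]; exact hb)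
  have hΘ : Q * diagonal h' * Q⁻¹ = pr F blk J * (Q * diagonal h * Q⁻¹) := by
    have h1 : diagonal h' = pr F blk J * diagonal h := by
      rw [pr, diagonal_mul_diagonal]
      congr 1
      funext t
      by_cases ht : blk t ∈ J
      · rw [if_pos ht, one_mul]
        exact if_pos ht
      · rw [if_neg ht, zero_mul]
        exact if_neg ht
    rw [h1, ← mul_assoc, ← pr_comm blkQ]
    noncomm_ring
  have hΘb : IsBlock blk (Q * diagonal h * Q⁻¹) :=
    (blkQ.mul (IsBlock.diagonal _)).mul (blkQ.inv unitQ)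
  have hmem : ∀ Y, Y ∈ 𝔤.map (LinearMap.mulLeft k p) ↔ ∃ Z ∈ 𝔤, p * Z = Y := fun Y => Iff.rfl
  have H : CoreHyp (F := F) blk b E ε (𝔤.map (LinearMap.mulLeft k p)) Q h' w o₁ := by
    refine ⟨eps, blkE, unitE, sym, ?_, ?_, ⟨?_, ?_, ?_⟩, blkQ, unitQ, ?_, ?_, ob, ?_, ?_, ?_⟩
    · intro Z hZ Z' hZ'
      obtain ⟨X, hX, rfl⟩ := (hmem Z).1 hZ
      obtain ⟨Y, hY, rfl⟩ := (hmem Z').1 hZ'
      refine (hmem _).2 ⟨_, brack X hX Y hY, ?_⟩
      have e1 : p * X * (p * Y) = p * (X * Y) := by
        calc p * X * (p * Y) = p * (X * p) * Y := by noncomm_ring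
          _ = p * (p * X) * Y := by rw [hp, pr_comm (hblk X hX)]
          _ = (p * p) * (X * Y) := by noncomm_ring
          _ = _ := by rw [hp, pr_sq]
      have e2 : p * Y * (p * X) = p * (Y * X) := by
        calc p * Y * (p * X) = p * (Y * p) * X := by noncomm_ring
          _ = p * (p * Y) * X := by rw [hp, pr_comm (hblk Y hY)]
          _ = (p * p) * (Y * X) := by noncomm_ring
          _ = _ := by rw [hp, pr_sq]
      rw [e1, e2, mul_sub]
    · intro Z hZ
      obtain ⟨X, hX, rfl⟩ := (hmem Z).1 hZ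
      obtain ⟨c, hc⟩ := sim X hX
      refine ⟨c, fun s t hs => ?_⟩
      rw [hp, pr_rows hb blkE (hblk X hX) s t hs, hc s t hs]
    · intro Z hZ
      obtain ⟨X, hX, rfl⟩ := (hmem Z).1 hZ
      exact (IsBlock.diagonal _).mul (hblk X hX)
    · intro W hW hst
      refine abs.irr W hW fun Z hZ x hx => ?_
      have h1 := hst _ ((hmem _).2 ⟨Z, hZ, rfl⟩) x hx
      have h2 : (p * Z) *ᵥ x = Z *ᵥ x := by
        have h3 := act_space (hblk Z hZ) (hW hx)
        rw [← mulVec_mulVec]
        funext s
        rw [hp, pr, mulVec_diagonal]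
        by_cases hs : blk s = b
        · rw [if_pos (by rw [hs]; exact hb), one_mul]
        · rw [h3 s hs, mul_zero]
      rwa [h2] at h1
    · intro C hC hcomm
      have hCb : IsBlock blk C := by
        intro s t hst
        by_contra h0
        obtain ⟨h1, h2⟩ := hC s t h0
        exact hst (h1.trans h2.symm)
      have hpC : p * C = C := by
        ext s t
        rw [hp, pr_mul_apply]
        split_ifs with h1
        · rfl
        · by_contra h0
          exact h1 (by rw [(hC s t fun h => h0 h.symm).1]; exact hb)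
      refine abs.comm C hC fun Z hZ => ?_
      have h1 := hcomm _ ((hmem _).2 ⟨Z, hZ, rfl⟩)
      calc C * Z = (p * C) * Z := by rw [hpC]
        _ = (C * p) * Z := by rw [hp, pr_comm hCb]
        _ = C * (p * Z) := by rw [mul_assoc]
        _ = (p * Z) * C := h1
        _ = (Z * p) * C := by rw [hp, pr_comm (hblk Z hZ)]
        _ = Z * C := by rw [mul_assoc, hpC]
    · rw [hΘ]
      generalize Q * diagonal h * Q⁻¹ = Θ at theta
      induction theta using Submodule.span_induction with
      | mem x hx =>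
        obtain ⟨x, hx, rfl⟩ := hx
        have h1 := extk_mem (F := F) ((hmem _).2 ⟨x, hx, rfl⟩)
        rw [map_mul', hp, pr_map] at h1
        exact h1
      | zero => rw [mul_zero]; exact zero_mem _
      | add x y _ _ h1 h2 => rw [mul_add]; exact add_mem h1 h2
      | smul c x _ h1 => rw [mul_smul_comm]; exact Submodule.smul_mem _ c h1
    · intro s t hs
      rw [hΘ, pr_rows hb blkE.map hΘb s t hs, wt s t hs]
    · intro t ht he
      rw [hh' t ht, hh' o₁ ob] at he
      exact iso1 t ht he
    · intro r s t hr hs ht he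
      rw [hh' o₁ ob, hh' r hr, hh' s hs, hh' t ht] at he
      rw [hh' o₁ ob, hh' r hr]
      exact iso2 r s t hr hs ht he
    · intro t r s ht hne hrs hr
      rw [hh' t ht, hh' o₁ ob]
      by_cases hJ : blk r ∈ J
      · have e1 : h' r = h r := if_pos hJ
        have e2 : h' s = h s := if_pos (by rw [← hrs]; exact hJ)
        rw [e1, e2]
        exact across t r s ht hne hrs hr hJ
      · have e1 : h' r = 0 := if_neg hJ
        have e2 : h' s = 0 := if_neg (by rw [← hrs]; exact hJ)
        rw [e1, e2, sub_self, Ne, sub_eq_zero]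
        exact fun h3 => hne (iso1 t ht h3)
  exact (hmem X).1 (H.skew_mem X hX hs)

end Pool.Agent.H20.TD
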