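import Mathlib
import Pool.Agent.H20.TB.Link

/-!
# Goursat's lemma for Lie algebras of symplectic operators
-/

set_option autoImplicit false
set_option linter.unusedSectionVars false
set_option linter.unusedVariables false
set_option linter.unusedSimpArgs false
set_option linter.unusedTactic false
set_option linter.unreachableTactic false

namespace Pool.Agent.H20.TD

open Module Polynomial Pool.Agent.H204R3.GP Pool.Agent.H204R3.SP Pool.Agent.Y114.TF
  Pool.Agent.Y114.MU Pool.Agent.H20.TB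

noncomputable section

section family

variable {k : Type} [Field k] [CharZero k] {ι : Type} [Fintype ι] [DecidableEq ι]
  {V : ι → Type} [∀ i, AddCommGroup (V i)] [∀ i, Module k (V i)] [∀ i, FiniteDimensional k (V i)]
  (ω : ∀ i, V i →ₗ[k] V i →ₗ[k] k) (𝔞 : Submodule k (∀ i, End k (V i)))

/-- **Linked factors are isomorphic.** -/
theorem exists_link (halt : ∀ i v, ω i v v = 0) (hnd : ∀ i u, (∀ v, ω i v u = 0) → u = 0)
    (hsp : ∀ A ∈ 𝔞, ∀ i, A i ∈ SpL (ω i))
    (hbr : ∀ A ∈ 𝔞, ∀ B ∈ 𝔞, (fun i => A i * B i - B i * A i) ∈ 𝔞) {i j : ι}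
    (hsi : ∀ X ∈ SpL (ω i), ∃ A ∈ 𝔞, A i = X) (hsj : ∀ X ∈ SpL (ω j), ∃ A ∈ 𝔞, A j = X)
    (hij : ∀ A ∈ 𝔞, A i = 0 → A j = 0) (hji : ∀ A ∈ 𝔞, A j = 0 → A i = 0)
    {u₀ : V j} (hu₀ : u₀ ≠ 0) :
    ∃ (g : V j →ₗ[k] V i) (c : k), Function.Bijective g ∧ c ≠ 0 ∧
      (∀ A ∈ 𝔞, ∀ x, g (A j x) = A i (g x)) ∧ ∀ x y, ω j x y = c * ω i (g x) (g y) := by
  classical
  obtain ⟨T, hT, hTj⟩ := hsj _ (SS_mem_SpL (ω j) (halt j) u₀ u₀)
  have hTi0 : T i ≠ 0 := by
    intro h
    have h1 := hij T hT h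
    rw [hTj] at h1
    exact hu₀ (SS_eq_zero (ω j) (halt j) (hnd j) hu₀ h1)
  have hbrT : ∀ A ∈ 𝔞, A j * T j - T j * A j = (2 : k) • SS (ω j) u₀ (A j u₀) := by
    intro A hA
    rw [hTj, bracket_SS (ω j) (hsp A hA j), SS_comm (ω j) (A j u₀), two_smul]
  obtain ⟨δ, c', hδ, hc', hTi⟩ := extremal_SS (ω i) (halt i) (hnd i) (hsp T hT i) hTi0 (by
    intro Y hY
    obtain ⟨A, hA, rfl⟩ := hsi Y hY
    have h1 := hbr T hT A hA
    have h2 := hbr T hT _ h1
    refine ⟨-(4 * ω j u₀ (A j u₀)), ?_⟩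
    have h3 := hji _ (Submodule.sub_mem _ h2 (Submodule.smul_mem _ (-(4 * ω j u₀ (A j u₀))) hT)) (by
      change T j * (T j * A j - A j * T j) - (T j * A j - A j * T j) * T j -
        (-(4 * ω j u₀ (A j u₀))) • T j = 0
      have e1 : T j * A j - A j * T j = -((2 : k) • SS (ω j) u₀ (A j u₀)) := by
        rw [← hbrT A hA, neg_sub]
      have e2 : T j u₀ = 0 := by
        rw [hTj, SS_apply, halt, zero_smul, add_zero]
      have e3 : T j (A j u₀) = (2 * ω j u₀ (A j u₀)) • u₀ := by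
        rw [hTj, SS_apply, ← two_smul k, smul_smul]
      have e4 : T j * SS (ω j) u₀ (A j u₀) - SS (ω j) u₀ (A j u₀) * T j =
          (2 * ω j u₀ (A j u₀)) • T j := by
        rw [bracket_SS (ω j) (hsp T hT j), e2, e3, Pool.Agent.W529.Ta.SS_smul_right,
          SS_comm (ω j) 0, Pool.Agent.W529.Ta.SS_zero_right, zero_add, ← hTj]
      rw [e1, mul_neg, neg_mul, mul_smul_comm, smul_mul_assoc]
      have e5 : -((2 : k) • (T j * SS (ω j) u₀ (A j u₀))) -
          -((2 : k) • (SS (ω j) u₀ (A j u₀) * T j)) - (-(4 * ω j u₀ (A j u₀))) • T j =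
          -(2 : k) • (T j * SS (ω j) u₀ (A j u₀) - SS (ω j) u₀ (A j u₀) * T j) +
          (4 * ω j u₀ (A j u₀)) • T j := by module
      rw [e5, e4]
      module)
    have h4 : T i * (T i * A i - A i * T i) - (T i * A i - A i * T i) * T i -
        (-(4 * ω j u₀ (A j u₀))) • T i = 0 := h3
    exact sub_eq_zero.1 h4)
  have hbrTi : ∀ A ∈ 𝔞, A i * T i - T i * A i = (2 * c') • SS (ω i) δ (A i δ) := by
    intro A hA
    rw [hTi, mul_smul_comm, smul_mul_assoc, ← smul_sub, bracket_SS (ω i) (hsp A hA i),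
      SS_comm (ω i) (A i δ), ← two_smul k, smul_smul, mul_comm]
  -- the two evaluation maps
  let pj : 𝔞 →ₗ[k] V j :=
    { toFun := fun A => A.1 j u₀
      map_add' := fun A B => rfl
      map_smul' := fun c A => rfl }
  let pi : 𝔞 →ₗ[k] V i :=
    { toFun := fun A => A.1 i δ
      map_add' := fun A B => rfl
      map_smul' := fun c A => rfl }
  have hpj : ∀ A : 𝔞, pj A = A.1 j u₀ := fun _ => rfl
  have hpi : ∀ A : 𝔞, pi A = A.1 i δ := fun _ => rfl
  have hker : ∀ A : 𝔞, pj A = 0 ↔ pi A = 0 := by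
    rintro ⟨A, hA⟩
    rw [hpj, hpi]
    constructor
    · intro h
      have h1 := hji _ (hbr A hA T hT) (by
        change A j * T j - T j * A j = 0
        rw [hbrT A hA]
        change (2 : k) • SS (ω j) u₀ (A j u₀) = 0
        change A j u₀ = 0 at h
        rw [h, Pool.Agent.W529.Ta.SS_zero_right, smul_zero])
      change A i * T i - T i * A i = 0 at h1
      rw [hbrTi A hA] at h1
      exact SS_eq_zero (ω i) (halt i) (hnd i) hδ
        ((smul_eq_zero.1 h1).resolve_left (mul_ne_zero two_ne_zero hc'))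
    · intro h
      have h1 := hij _ (hbr A hA T hT) (by
        change A i * T i - T i * A i = 0
        rw [hbrTi A hA]
        change A i δ = 0 at h
        rw [h, Pool.Agent.W529.Ta.SS_zero_right, smul_zero])
      change A j * T j - T j * A j = 0 at h1
      rw [hbrT A hA] at h1
      exact SS_eq_zero (ω j) (halt j) (hnd j) hu₀
        ((smul_eq_zero.1 h1).resolve_left two_ne_zero)
  have hpjs : Function.Surjective pj := by
    intro v
    obtain ⟨Y, hY, hYv⟩ := exists_move (ω j) (halt j) (hnd j) hu₀ v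
    obtain ⟨A, hA, rfl⟩ := hsj Y hY
    exact ⟨⟨A, hA⟩, hYv⟩
  have hpis : Function.Surjective pi := by
    intro v
    obtain ⟨Y, hY, hYv⟩ := exists_move (ω i) (halt i) (hnd i) hδ v
    obtain ⟨A, hA, rfl⟩ := hsi Y hY
    exact ⟨⟨A, hA⟩, hYv⟩
  have hkle : LinearMap.ker pj ≤ LinearMap.ker pi := fun A hA => (hker A).1 hA
  obtain ⟨g, hg⟩ : ∃ g : V j →ₗ[k] V i, g ∘ₗ pj = pi := by
    obtain ⟨s, hs⟩ := pj.exists_rightInverse_of_surjective (LinearMap.range_eq_top.2 hpjs)
    refine ⟨pi ∘ₗ s, LinearMap.ext fun A => ?_⟩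
    have h1 : pj (s (pj A) - A) = 0 := by
      rw [map_sub, sub_eq_zero]
      exact LinearMap.congr_fun hs (pj A)
    have h2 := (hker _).1 h1
    rw [map_sub, sub_eq_zero] at h2
    exact h2
  have hgA : ∀ A ∈ 𝔞, g (A j u₀) = A i δ := fun A hA => LinearMap.congr_fun hg ⟨A, hA⟩
  have hginj : Function.Injective g := by
    rw [← LinearMap.ker_eq_bot, LinearMap.ker_eq_bot']
    intro x hx
    obtain ⟨A, rfl⟩ := hpjs x
    have h1 : pi A = 0 := by rw [← hg]; exact hx
    exact (hker A).2 h1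
  have hgsurj : Function.Surjective g := by
    intro y
    obtain ⟨A, rfl⟩ := hpis y
    exact ⟨pj A, LinearMap.congr_fun hg A⟩
  -- the value at `u₀`
  have hgu : g u₀ = δ := by
    obtain ⟨⟨A, hA⟩, hAu⟩ := hpjs u₀
    change A j u₀ = u₀ at hAu
    have h1 := hji _ (Submodule.sub_mem _ (hbr A hA T hT) (Submodule.smul_mem _ (2 : k) hT)) (by
      change A j * T j - T j * A j - (2 : k) • T j = 0
      rw [hbrT A hA, hAu, hTj, sub_self])
    change A i * T i - T i * A i - (2 : k) • T i = 0 at h1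
    rw [hbrTi A hA, hTi, smul_smul, mul_smul, mul_smul, ← smul_sub, ← smul_sub] at h1
    have h2 := (smul_eq_zero.1 ((smul_eq_zero.1 h1).resolve_left two_ne_zero)).resolve_left hc'
    have h3 : SS (ω i) δ (A i δ - δ) = 0 := by
      have h4 : A i δ - δ = A i δ + (-1 : k) • δ := by rw [neg_one_smul, sub_eq_add_neg]
      rw [h4, Pool.Agent.W529.Ta.SS_add_right, Pool.Agent.W529.Ta.SS_smul_right, neg_one_smul,
        ← sub_eq_add_neg]
      exact h2
    have h4 := SS_eq_zero (ω i) (halt i) (hnd i) hδ h3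
    rw [← hgA A hA, hAu, sub_eq_zero] at h4
    exact h4
  -- the operators which commute with `g`
  let m : Submodule k (∀ i, End k (V i)) :=
    { carrier := {A | A ∈ 𝔞 ∧ ∀ x, g (A j x) = A i (g x)}
      zero_mem' := ⟨Submodule.zero_mem _, fun x => by
        rw [Pi.zero_apply, Pi.zero_apply, LinearMap.zero_apply, LinearMap.zero_apply, map_zero]⟩
      add_mem' := fun {A B} hA hB => ⟨Submodule.add_mem _ hA.1 hB.1, fun x => by
        rw [Pi.add_apply, Pi.add_apply, LinearMap.add_apply, LinearMap.add_apply, map_add, hA.2,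
          hB.2]⟩
      smul_mem' := fun c A hA => ⟨Submodule.smul_mem _ c hA.1, fun x => by
        rw [Pi.smul_apply, Pi.smul_apply, LinearMap.smul_apply, LinearMap.smul_apply, map_smul,
          hA.2]⟩ }
  have hm : ∀ A, A ∈ m ↔ A ∈ 𝔞 ∧ ∀ x, g (A j x) = A i (g x) := fun A => Iff.rfl
  have hmbr : ∀ A ∈ m, ∀ B ∈ m, (fun i => A i * B i - B i * A i) ∈ m := by
    intro A hA B hB
    refine ⟨hbr A hA.1 B hB.1, fun x => ?_⟩
    simp only [LinearMap.sub_apply, Module.End.mul_apply, map_sub]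
    rw [hA.2, hB.2, hB.2, hA.2]
  have hD : ∀ X ∈ 𝔞, ∀ A ∈ 𝔞, g (X j (A j u₀)) - X i (g (A j u₀)) =
      g (A j (X j u₀)) - A i (g (X j u₀)) := by
    intro X hX A hA
    have h1 := hgA _ (hbr X hX A hA)
    simp only [LinearMap.sub_apply, Module.End.mul_apply, map_sub] at h1
    rw [hgA A hA, hgA X hX]
    linear_combination (norm := module) h1
  have hline : ∀ X ∈ 𝔞, ∀ c : k, X j u₀ = c • u₀ → X ∈ m := by
    intro X hX c hc
    refine ⟨hX, fun x => ?_⟩
    obtain ⟨⟨A, hA⟩, rfl⟩ := hpjs x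
    have h1 := hD X hX A hA
    rw [hc, map_smul, map_smul, map_smul, map_smul, hgA A hA, hgu, sub_self] at h1
    change g (X j (A j u₀)) = X i (g (A j u₀))
    rw [hgA A hA]
    exact sub_eq_zero.1 h1
  -- a hyperbolic pair
  obtain ⟨q, hq⟩ := exists_pair (ω j) (halt j) (hnd j) hu₀
  have hq' : ω j q u₀ = -1 := by rw [alt_neg (ω j) (halt j), hq]
  obtain ⟨E, hE, hEj⟩ := hsj _ (SS_mem_SpL (ω j) (halt j) u₀ q)
  have hEm : E ∈ m := by
    refine hline E hE (-1) ?_
    rw [hEj, SS_apply, halt, zero_smul, zero_add, hq']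
  have hEi : ∀ (c : k) (v : V i), c ^ 3 - c ≠ 0 → E i v = c • v → v = 0 := by
    intro c v hc hv
    obtain ⟨z, rfl⟩ := hgsurj v
    have h1 : ∀ x, g (E j x) = E i (g x) := hEm.2
    have h2 := cube_SS (ω j) (halt j) hq z
    rw [← hEj] at h2
    have h3 := congrArg g h2
    rw [h1, h1, h1, hv, map_smul, hv, smul_smul, map_smul, hv, smul_smul, ← sub_eq_zero,
      ← sub_smul] at h3
    refine (smul_eq_zero.1 h3).resolve_left ?_
    intro h4
    apply hc
    linear_combination h4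
  obtain ⟨F, hF, hFj⟩ := hsj _ (SS_mem_SpL (ω j) (halt j) q q)
  have hEF : ∀ x, E j (F j x) - F j (E j x) = (2 : k) • F j x := by
    intro x
    have h1 := bracket_SS (ω j) (hsp E hE j) q q
    have h2 : E j q = q := by rw [hEj, SS_apply, hq, halt, zero_smul, add_zero, one_smul]
    rw [h2, ← two_smul k, ← hFj] at h1
    exact LinearMap.congr_fun h1 x
  have hEFi : ∀ x, E i (F i x) - F i (E i x) = (2 : k) • F i x := by
    intro x
    have h1 := hji _ (Submodule.sub_mem _ (hbr E hE F hF) (Submodule.smul_mem _ (2 : k) hF)) (by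
      change E j * F j - F j * E j - (2 : k) • F j = 0
      exact LinearMap.ext fun x => sub_eq_zero.2 (hEF x))
    change E i * F i - F i * E i - (2 : k) • F i = 0 at h1
    exact sub_eq_zero.1 (LinearMap.congr_fun h1 x)
  have hFD : ∀ x, E i (g (F j x) - F i (g x)) = (2 : k) • (g (F j x) - F i (g x)) +
      (g (F j (E j x)) - F i (g (E j x))) := by
    intro x
    have h1 : ∀ x, g (E j x) = E i (g x) := hEm.2
    have h2 := congrArg g (hEF x)
    have h3 := hEFi (g x)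
    rw [map_sub, map_smul, h1] at h2
    rw [map_sub, h1 x, smul_sub, ← h2, ← h3]
    abel
  have hFm : F ∈ m := by
    refine ⟨hF, fun x => ?_⟩
    have hFu : g (F j u₀) - F i (g u₀) = 0 := by
      rw [hgu, hgA F hF, sub_self]
    have hFq : g (F j q) - F i (g q) = 0 := by
      refine hEi 3 _ (by norm_num) ?_
      have h1 := hFD q
      have h2 : E j q = q := by rw [hEj, SS_apply, hq, halt, zero_smul, add_zero, one_smul]
      rw [h2] at h1
      rw [h1]
      module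
    have hFw : ∀ w, ω j u₀ w = 0 → ω j q w = 0 → g (F j w) - F i (g w) = 0 := by
      intro w h1 h2
      refine hEi 2 _ (by norm_num) ?_
      have h3 := hFD w
      have h4 : E j w = 0 := by rw [hEj, SS_apply, h1, h2, zero_smul, zero_smul, add_zero]
      simp only [h4, map_zero, sub_self, add_zero] at h3
      exact h3
    obtain ⟨w, hw⟩ : ∃ w, w = x + (ω j q x) • u₀ - (ω j u₀ x) • q := ⟨_, rfl⟩
    have hw1 : ω j u₀ w = 0 := by
      rw [hw, map_sub, map_add, map_smul, map_smul, halt, hq, smul_zero, add_zero, smul_eq_mul,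
        mul_one, sub_self]
    have hw2 : ω j q w = 0 := by
      rw [hw, map_sub, map_add, map_smul, map_smul, halt, hq', smul_zero, sub_zero, smul_eq_mul,
        mul_neg, mul_one, add_neg_cancel]
    have hx : x = w - (ω j q x) • u₀ + (ω j u₀ x) • q := by rw [hw]; abel
    have h5 := hFw w hw1 hw2
    rw [← sub_eq_zero, hx]
    simp only [map_add, map_sub, map_smul]
    have h6 : g (F j w) - (ω j) q x • g (F j u₀) + (ω j) u₀ x • g (F j q) -
        (F i (g w) - (ω j) q x • F i (g u₀) + (ω j) u₀ x • F i (g q)) =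
        (g (F j w) - F i (g w)) - (ω j) q x • (g (F j u₀) - F i (g u₀)) +
        (ω j) u₀ x • (g (F j q) - F i (g q)) := by
      module
    rw [h6, h5, hFu, hFq, smul_zero, smul_zero, sub_zero, add_zero]
  -- all operators
  have hmm : ∀ X ∈ SpL (ω j), ∃ A ∈ m, A j = X := by
    have hM : ∀ X, X ∈ m.map (LinearMap.proj (R := k) (φ := fun i => End k (V i)) j) ↔
        ∃ A ∈ m, A j = X := fun X => Iff.rfl
    obtain ⟨M, hMdef⟩ : ∃ M : Submodule k (End k (V j)), M =
        m.map (LinearMap.proj (R := k) (φ := fun i => End k (V i)) j) := ⟨_, rfl⟩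
    rw [← hMdef] at hM
    have Mbr : ∀ X ∈ M, ∀ Y ∈ M, X * Y - Y * X ∈ M := by
      intro X hX Y hY
      obtain ⟨A, hA, rfl⟩ := (hM X).1 hX
      obtain ⟨B, hB, rfl⟩ := (hM Y).1 hY
      exact (hM _).2 ⟨_, hmbr A hA B hB, rfl⟩
    have Msm : ∀ (c : k) (X : End k (V j)), c ≠ 0 → c • X ∈ M → X ∈ M := fun c X hc hX =>
      (Submodule.smul_mem_iff _ hc).1 hX
    have MF : SS (ω j) q q ∈ M := (hM _).2 ⟨F, hFm, hFj⟩
    have M1 : ∀ x, SS (ω j) u₀ x ∈ M := by
      intro x
      obtain ⟨A, hA, hAj⟩ := hsj _ (SS_mem_SpL (ω j) (halt j) u₀ x)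
      refine (hM _).2 ⟨A, hline A hA (ω j x u₀) ?_, hAj⟩
      rw [hAj, SS_apply, halt, zero_smul, zero_add]
    have M2 : ∀ x, SS (ω j) x q ∈ M := by
      intro x
      have h1 := Mbr _ (M1 x) _ MF
      rw [bracket_SS (ω j) (SS_mem_SpL (ω j) (halt j) u₀ x), SS_comm (ω j) q, ← two_smul k] at h1
      have h2 := Msm _ _ two_ne_zero h1
      rw [SS_apply, hq, one_smul, SS_add, SS_smul] at h2
      have h3 := Submodule.sub_mem _ h2 (Submodule.smul_mem _ (ω j x q) (M1 q))
      rwa [add_sub_cancel_right] at h3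
    have M3 : ∀ x y, SS (ω j) x y ∈ M := by
      intro x y
      have h1 := Mbr _ (M1 x) _ (M2 y)
      rw [bracket_SS (ω j) (SS_mem_SpL (ω j) (halt j) u₀ x)] at h1
      have h2 := Submodule.sub_mem _ h1 (M2 (SS (ω j) u₀ x y))
      rw [add_sub_cancel_left, SS_apply, hq, one_smul, SS_comm, SS_add, SS_smul] at h2
      have h3 := Submodule.sub_mem _ h2 (Submodule.smul_mem _ (ω j x q) (M1 y))
      rwa [add_sub_cancel_right] at h3
    intro X hX
    exact (hM X).1 (SpL_le' (ω j) (halt j) (hnd j) M3 hX)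
  have hall : ∀ A ∈ 𝔞, A ∈ m := by
    intro A hA
    obtain ⟨B, hB, hBA⟩ := hmm (A j) (hsp A hA j)
    have h1 := hji _ (Submodule.sub_mem _ hA hB.1) (by
      change A j - B j = 0
      rw [hBA, sub_self])
    have h2 : A - B ∈ m := ⟨Submodule.sub_mem _ hA hB.1, fun x => by
      rw [h1]
      change g ((A j - B j) x) = _
      rw [hBA, sub_self, LinearMap.zero_apply, LinearMap.zero_apply, map_zero]⟩
    have h3 := Submodule.add_mem _ h2 hB
    rwa [sub_add_cancel] at h3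
  refine ⟨g, c', ⟨hginj, hgsurj⟩, hc', fun A hA => (hall A hA).2, ?_⟩
  -- the forms
  have hstar : ∀ x, ω j u₀ x = c' * ω i δ (g x) := by
    intro x
    have h1 := (hall T hT).2 x
    rw [hTj, hTi, SS_apply, LinearMap.smul_apply, SS_apply, ← two_smul k, ← two_smul k, map_smul,
      map_smul, hgu] at h1
    have h2 : (2 * (ω j u₀ x - c' * ω i δ (g x))) • δ = 0 := by
      have h3 : (2 * (ω j u₀ x - c' * ω i δ (g x))) • δ =
          (2 : k) • ω j u₀ x • δ - c' • (2 : k) • ω i δ (g x) • δ := by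
        module
      rw [h3, h1, sub_self]
    have h3 := (smul_eq_zero.1 h2).resolve_right hδ
    exact sub_eq_zero.1 ((mul_eq_zero.1 h3).resolve_left two_ne_zero)
  intro x y
  obtain ⟨⟨A, hA⟩, rfl⟩ := hpjs x
  change ω j (A j u₀) y = c' * ω i (g (A j u₀)) (g y)
  have h1 := hsp A hA j u₀ y
  have h2 := hsp A hA i δ (g y)
  have h3 := hstar (A j y)
  rw [(hall A hA).2 y] at h3
  rw [hgA A hA]
  linear_combination h1 - c' * h2 - h3

/-- **Goursat's lemma.** -/
theorem goursat_sp (halt : ∀ i v, ω i v v = 0) (hnd : ∀ i u, (∀ v, ω i v u = 0) → u = 0)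
    (hsp : ∀ A ∈ 𝔞, ∀ i, A i ∈ SpL (ω i))
    (hbr : ∀ A ∈ 𝔞, ∀ B ∈ 𝔞, (fun i => A i * B i - B i * A i) ∈ 𝔞)
    (hV : ∀ i, ∃ v : V i, v ≠ 0)
    (hsurj : ∀ i, ∀ X ∈ SpL (ω i), ∃ A ∈ 𝔞, A i = X)
    (hno : ∀ i j, i ≠ j → ∀ (g : V j →ₗ[k] V i) (c : k), Function.Bijective g → c ≠ 0 →
      (∀ A ∈ 𝔞, ∀ x, g (A j x) = A i (g x)) → ¬ ∀ x y, ω j x y = c * ω i (g x) (g y))
    (i : ι) {X : End k (V i)} (hX : X ∈ SpL (ω i)) : Pi.single i X ∈ 𝔞 := by
  classical
  choose δ hδ using hV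
  have hdx : ∀ i, ∃ (R : Type) (_ : Fintype R) (_ : DecidableEq R) (e : Basis R k (V i))
      (inv : R → R) (jj : R → k),
      (∀ x, inv (inv x) = x) ∧ (∀ x, inv x ≠ x) ∧ (∀ x, jj (inv x) = -jj x) ∧
      (∀ x, jj x = 1 ∨ jj x = -1) ∧ ∀ x y, ω i (e x) (e y) = JJ inv jj x y := fun i =>
    Pool.Agent.W529.Ta.exists_darboux (finrank k (V i)) (V i) (ω i) (halt i) (hnd i) le_rfl
  choose R hRf hRd e iv jj hiv hivne hjj hj1 hω using hdx
  have hj0 : ∀ i x, jj i x ≠ 0 := by
    intro i x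
    rcases hj1 i x with h | h <;> rw [h]
    · exact one_ne_zero
    · exact neg_ne_zero.2 one_ne_zero
  refine goursat 𝔞 (fun A hA B hB => hbr A hA B hB) (fun i => SpL (ω i)) (fun A hA i => hsp A hA i)
    hsurj ?_ ?_ ?_ i hX
  · intro i J hJle hJ hJne
    exact SpL_le (ω i) (e i) (hiv i) (hjj i) (hj0 i) (hω i)
      fun u w => J_all (ω i) (halt i) hJle hJ (hnd i) hJne w u
  · intro i
    exact SpL_nab (ω i) (hnd i) (halt i) (hδ i)
  · intro i j hij
    by_contra hcon
    rw [not_or] at hcon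
    push Not at hcon
    obtain ⟨hl1, hl2⟩ := hcon
    obtain ⟨g, c, hg, hc, hgA, hform⟩ := exists_link ω 𝔞 halt hnd hsp hbr (hsurj i) (hsurj j)
      hl2 hl1 (hδ j)
    exact hno i j hij g c hg hc hgA hform

end family

end

end Pool.Agent.H20.TD
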