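import Mathlib
import Pool.Agent.H4.HW.Main
import Pool.Agent.H20.TD.Link
import Pool.Agent.H20.TD.Cut

/-!
# Block matrices and operators on the summands
-/

set_option autoImplicit false
set_option linter.unusedSectionVars false

namespace Pool.Agent.H20.TD

open Matrix Pool.Agent.H4.HW Module Pool.Agent.Y114.MU Pool.Agent.Y114.TF Pool.Agent.H20.TB

variable {T B : Type} [Fintype T] [DecidableEq T] (M : Betti T B) (F : Type) [Field F] [CharZero F]

/-- the form on the summand -/
noncomputable def frm (b : B) :
    (space F M.blk b) →ₗ[F] (space F M.blk b) →ₗ[F] F :=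
  LinearMap.domRestrict₁₂ (Matrix.toBilin' (M.EF F)) _ _

theorem frm_apply (b : B) (u v : space F M.blk b) :
    frm M F b u v = (u : T → F) ⬝ᵥ (M.EF F) *ᵥ (v : T → F) := by
  rw [frm, LinearMap.domRestrict₁₂_apply, Matrix.toBilin'_apply']

variable {M F}

theorem frm_alt {b : B} (h : Alternating M b) (u : space F M.blk b) : frm M F b u u = 0 := by
  have h1 : frm M F b u u = -frm M F b u u := by
    conv_lhs => rw [frm_apply]
    rw [frm_apply]
    simp only [dotProduct, mulVec]
    rw [← Finset.sum_neg_distrib]
    simp only [Finset.mul_sum, ← Finset.sum_neg_distrib]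
    rw [Finset.sum_comm]
    refine Finset.sum_congr rfl fun t _ => Finset.sum_congr rfl fun s _ => ?_
    by_cases hs : M.blk s = b
    · have h4 : M.EF F t s = -M.EF F s t := by
        rw [Betti.EF, map_apply, map_apply, h s t hs, map_neg]
      rw [h4]
      ring
    · rw [u.2 s hs]
      ring
  have h2 : (2 : F) * frm M F b u u = 0 := by linear_combination h1
  exact (mul_eq_zero.1 h2).resolve_left two_ne_zero

theorem frm_nondeg (hu : IsUnit M.E.det) (hE : IsBlock M.blk M.E) {b : B} (u : space F M.blk b)
    (h : ∀ v, frm M F b v u = 0) : u = 0 := by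
  have h1 : (M.EF F) *ᵥ (u : T → F) ∈ space F M.blk b := act_space (M.EF_block hE) u.2
  have h2 : (M.EF F) *ᵥ (u : T → F) = 0 := by
    funext t
    by_cases ht : M.blk t = b
    · have h3 := h ⟨Pi.single t 1, fun s hs => by
        rw [Pi.single_eq_of_ne]
        rintro rfl
        exact hs ht⟩
      rw [frm_apply, single_one_dotProduct] at h3
      exact h3
    · exact h1 t ht
  refine Subtype.ext ?_
  exact Matrix.eq_zero_of_mulVec_eq_zero (M.EF_unit hu).ne_zero h2

section ops

variable {blk : T → B}

open scoped Classical in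
/-- the projection on a summand -/
noncomputable def pj (blk : T → B) (b : B) : (T → F) →ₗ[F] space F blk b where
  toFun x := ⟨fun t => if blk t = b then x t else 0, fun t ht => if_neg ht⟩
  map_add' x y := by
    refine Subtype.ext (funext fun t => ?_)
    show (if blk t = b then (x + y) t else 0) = (if blk t = b then x t else 0) +
      (if blk t = b then y t else 0)
    split_ifs <;> simp
  map_smul' c x := by
    refine Subtype.ext (funext fun t => ?_)
    show (if blk t = b then (c • x) t else 0) = c • (if blk t = b then x t else 0)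
    split_ifs <;> simp

theorem pj_apply (b : B) (x : T → F) (t : T) (ht : blk t = b) : (pj blk b x : T → F) t = x t := by
  classical
  exact if_pos ht

theorem pj_of_mem {b : B} (x : space F blk b) : pj blk b (x : T → F) = x := by
  refine Subtype.ext (funext fun t => ?_)
  by_cases ht : blk t = b
  · exact pj_apply b _ t ht
  · rw [(pj blk b (x : T → F)).2 t ht, x.2 t ht]

/-- the operator on a summand given by a matrix -/
noncomputable def rs (blk : T → B) (b : B) : Matrix T T F →ₗ[F] End F (space F blk b) where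
  toFun Z := pj blk b ∘ₗ Matrix.toLin' Z ∘ₗ (space F blk b).subtype
  map_add' Z Z' := by
    refine LinearMap.ext fun x => ?_
    simp [LinearMap.comp_apply]
  map_smul' c Z := by
    refine LinearMap.ext fun x => ?_
    simp [LinearMap.comp_apply]

theorem rs_coe {b : B} {Z : Matrix T T F} (hZ : IsBlock blk Z) (x : space F blk b) :
    (rs blk b Z x : T → F) = Z *ᵥ (x : T → F) := by
  show (pj blk b (Matrix.toLin' Z (x : T → F)) : T → F) = _
  rw [toLin'_apply]
  exact congrArg Subtype.val (pj_of_mem ⟨Z *ᵥ (x : T → F), act_space hZ x.2⟩)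

theorem rs_mul {b : B} {Z Z' : Matrix T T F} (hZ : IsBlock blk Z) (hZ' : IsBlock blk Z') :
    rs blk b (Z * Z') = rs blk b Z * rs blk b Z' := by
  refine LinearMap.ext fun x => Subtype.ext ?_
  rw [rs_coe (hZ.mul hZ'), Module.End.mul_apply, rs_coe hZ, rs_coe hZ', mulVec_mulVec]

/-- a map between two summands, as a matrix -/
noncomputable def up {b c : B} (g : space F blk c →ₗ[F] space F blk b) : Matrix T T F :=
  LinearMap.toMatrix' ((space F blk b).subtype ∘ₗ g ∘ₗ pj blk c)

theorem up_mulVec {b c : B} (g : space F blk c →ₗ[F] space F blk b) (x : T → F) :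
    up g *ᵥ x = g (pj blk c x) := by
  rw [up, ← toLin'_apply, toLin'_toMatrix']
  rfl

theorem pj_other {b c : B} (h : c ≠ b) (x : space F blk b) : pj blk c (x : T → F) = 0 := by
  refine Subtype.ext (funext fun t => ?_)
  by_cases ht : blk t = c
  · rw [pj_apply c _ t ht]
    exact x.2 t (by rw [ht]; exact h)
  · exact (pj blk c (x : T → F)).2 t ht

theorem mulVec_single' (Z : Matrix T T F) (s t : T) : (Z *ᵥ Pi.single t 1) s = Z s t := by
  rw [mulVec_single_one]
  rfl

theorem up_maps {b c : B} (g : space F blk c →ₗ[F] space F blk b) (s t : T)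
    (h : up g s t ≠ 0) : blk s = b ∧ blk t = c := by
  rw [← mulVec_single' (up g) s t, up_mulVec] at h
  constructor
  · by_contra h1
    exact h ((g _).2 s h1)
  · by_contra h1
    apply h
    have h2 : pj blk c (Pi.single t 1 : T → F) = 0 := by
      refine Subtype.ext (funext fun r => ?_)
      by_cases hr : blk r = c
      · rw [pj_apply c _ r hr, Pi.single_eq_of_ne]
        · rfl
        · rintro rfl
          exact h1 hr
      · exact (pj blk c _).2 r hr
    rw [h2, map_zero]
    rfl

theorem up_ne_zero {b c : B} {g : space F blk c →ₗ[F] space F blk b} {x : space F blk c}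
    (hx : g x ≠ 0) : up g ≠ 0 := by
  intro h
  apply hx
  have h1 := up_mulVec g (x : T → F)
  rw [h, zero_mulVec, pj_of_mem] at h1
  exact Subtype.ext h1.symm

theorem rs_up {b : B} (Y : End F (space F blk b)) : rs blk b (up Y) = Y := by
  refine LinearMap.ext fun x => ?_
  show pj blk b (Matrix.toLin' (up Y) (x : T → F)) = _
  rw [toLin'_apply, up_mulVec, pj_of_mem, pj_of_mem]

/-- the values of a block matrix on all summands determine the product with a map -/
theorem mul_up {b c : B} {X : Matrix T T F} (hX : IsBlock blk X)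
    (g : space F blk c →ₗ[F] space F blk b) : X * up g = up (rs blk b X ∘ₗ g) := by
  apply Matrix.toLin'.injective
  refine LinearMap.ext fun x => ?_
  rw [toLin'_apply, toLin'_apply, ← mulVec_mulVec, up_mulVec, up_mulVec, LinearMap.comp_apply,
    rs_coe hX]

theorem pj_mulVec {c : B} {X : Matrix T T F} (hX : IsBlock blk X) (x : T → F) :
    pj blk c (X *ᵥ x) = rs blk c X (pj blk c x) := by
  refine Subtype.ext (funext fun s => ?_)
  rw [rs_coe hX]
  by_cases hs : blk s = c
  · rw [pj_apply c _ s hs]
    simp only [mulVec, dotProduct]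
    refine Finset.sum_congr rfl fun t _ => ?_
    by_cases ht : blk t = c
    · rw [pj_apply c _ t ht]
    · rw [hX s t (by rw [hs]; exact fun h => ht h.symm), zero_mul, zero_mul]
  · rw [(pj blk c _).2 s hs]
    exact (act_space hX (pj blk c x).2 s hs).symm

theorem up_mul {b c : B} {X : Matrix T T F} (hX : IsBlock blk X)
    (g : space F blk c →ₗ[F] space F blk b) : up g * X = up (g ∘ₗ rs blk c X) := by
  apply Matrix.toLin'.injective
  refine LinearMap.ext fun x => ?_
  rw [toLin'_apply, toLin'_apply, ← mulVec_mulVec, up_mulVec, up_mulVec, LinearMap.comp_apply,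
    pj_mulVec hX]

theorem up_smul {b c : B} (a : F) (g : space F blk c →ₗ[F] space F blk b) :
    up (a • g) = a • up g := by
  rw [up, up, ← map_smul]
  rfl

theorem up_sub {b c : B} (g g' : space F blk c →ₗ[F] space F blk b) :
    up (g - g') = up g - up g' := by
  rw [up, up, up, ← map_sub]
  congr 1

end ops

/-- the similitude equation on a summand -/
theorem frm_rows {b : B} {X : Matrix T T F} (hX : IsBlock M.blk X) {c : F}
    (h : ∀ s t, M.blk s = b → (Xᵀ * M.EF F + M.EF F * X) s t = c * M.EF F s t)
    (u v : space F M.blk b) :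
    frm M F b (rs M.blk b X u) v + frm M F b u (rs M.blk b X v) = c * frm M F b u v := by
  rw [frm_apply, frm_apply, frm_apply, rs_coe hX, rs_coe hX]
  have h1 : (X *ᵥ (u : T → F)) ⬝ᵥ M.EF F *ᵥ (v : T → F) =
      (u : T → F) ⬝ᵥ (Xᵀ * M.EF F) *ᵥ (v : T → F) := by
    rw [← vecMul_transpose, ← dotProduct_mulVec, mulVec_mulVec]
  rw [h1, mulVec_mulVec, ← dotProduct_add, ← add_mulVec]
  simp only [dotProduct, mulVec]
  rw [Finset.mul_sum]
  refine Finset.sum_congr rfl fun s _ => ?_
  by_cases hs : M.blk s = b
  · rw [Finset.mul_sum, Finset.mul_sum, Finset.mul_sum]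
    refine Finset.sum_congr rfl fun t _ => ?_
    rw [h s t hs]
    ring
  · rw [u.2 s hs]
    ring

/-- skew operators on a summand give skew matrices -/
theorem up_skew {b : B} (hE : IsBlock M.blk M.E) {Y : End F (space F M.blk b)}
    (hY : Y ∈ SpL (frm M F b)) : (up Y)ᵀ * M.EF F + M.EF F * up Y = 0 := by
  have hblk : IsBlock M.blk (up Y) := by
    intro s t hst
    by_contra h0
    obtain ⟨h1, h2⟩ := up_maps Y s t h0
    exact hst (h1.trans h2.symm)
  have hEF : IsBlock M.blk (M.EF F) := M.EF_block hE
  ext s t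
  rw [Matrix.zero_apply]
  by_cases hs : M.blk s = b
  swap
  · rw [Matrix.add_apply, mul_apply, mul_apply, Finset.sum_eq_zero, Finset.sum_eq_zero, add_zero]
    · intro r _
      by_cases h0 : up Y r t = 0
      · rw [h0, mul_zero]
      · rw [hEF s r (by rw [(up_maps Y r t h0).1]; exact hs), zero_mul]
    · intro r _
      rw [transpose_apply]
      by_cases h0 : up Y r s = 0
      · rw [h0, zero_mul]
      · exact absurd (up_maps Y r s h0).2 hs
  by_cases ht : M.blk t = b
  swap
  · rw [Matrix.add_apply, (hblk.transpose.mul hEF) s t (by rw [hs]; exact fun h => ht h.symm),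
      (hEF.mul hblk) s t (by rw [hs]; exact fun h => ht h.symm), add_zero]
  have hm : ∀ r, M.blk r = b → (Pi.single r 1 : T → F) ∈ space F M.blk b := by
    intro r hr a ha
    rw [Pi.single_eq_of_ne]
    rintro rfl
    exact ha hr
  have h1 := hY ⟨_, hm s hs⟩ ⟨_, hm t ht⟩
  have h2 : ∀ r (hr : M.blk r = b), ((Y ⟨_, hm r hr⟩ : space F M.blk b) : T → F) =
      up Y *ᵥ Pi.single r 1 := by
    intro r hr
    rw [up_mulVec, pj_of_mem (⟨_, hm r hr⟩ : space F M.blk b)]
  rw [frm_apply, frm_apply, h2 s hs, h2 t ht] at h1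
  have h3 : (up Y *ᵥ (Pi.single s 1 : T → F)) ⬝ᵥ M.EF F *ᵥ (Pi.single t 1 : T → F) =
      (Pi.single s 1 : T → F) ⬝ᵥ ((up Y)ᵀ * M.EF F) *ᵥ (Pi.single t 1 : T → F) := by
    rw [← vecMul_transpose, ← dotProduct_mulVec, mulVec_mulVec]
  rw [h3, mulVec_mulVec, single_one_dotProduct, single_one_dotProduct, mulVec_single',
    mulVec_single'] at h1
  exact h1

end Pool.Agent.H20.TD
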