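import Mathlib
import Pool.Agent.H20.TD.Ops

/-!
# The product of the symplectic Lie algebras
-/

set_option autoImplicit false
set_option linter.unusedSectionVars false

namespace Pool.Agent.H20.TD

open Matrix Pool.Agent.H4.HW Module Pool.Agent.Y114.MU Pool.Agent.Y114.TF Pool.Agent.H20.TB

variable {T B : Type} [Fintype T] [DecidableEq T] (M : Betti T B) {k : Type} [Field k] [CharZero k]

/-- the hypotheses on the Lie algebra -/
structure LieHyp (A : Set B) (𝔤 : Submodule k (Matrix T T k)) : Prop where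
  form : IsUnit M.E.det ∧ IsBlock M.blk M.E
  alt : ∀ b ∈ A, Alternating M b
  ex : ∀ b ∈ A, ∃ v, M.blk v = b
  noto : M.blk M.o ∉ A
  block : ∀ Z ∈ 𝔤, IsBlock M.blk Z
  brack : ∀ Z ∈ 𝔤, ∀ Z' ∈ 𝔤, Z * Z' - Z' * Z ∈ 𝔤
  pol : ∀ Z ∈ 𝔤, M.Pol A Z
  /-- the projection on every summand is surjective -/
  proj : ∀ b ∈ A, ∀ X, M.ActsOn b X → Xᵀ * M.EF k + M.EF k * X = 0 →
    ∃ Z ∈ 𝔤, ∀ s t, (M.blk s ∉ A ∨ M.blk s = b) → Z s t = X s t

/-- the elements which are zero on the summands outside `A` -/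
def hh (A : Set B) (𝔤 : Submodule k (Matrix T T k)) : Submodule k (Matrix T T k) where
  carrier := {Z | Z ∈ 𝔤 ∧ ∀ s t, M.blk s ∉ A → Z s t = 0}
  add_mem' := by
    rintro X Y ⟨h1, h2⟩ ⟨h3, h4⟩
    exact ⟨add_mem h1 h3, fun s t hs => by rw [Matrix.add_apply, h2 s t hs, h4 s t hs, add_zero]⟩
  zero_mem' := ⟨zero_mem _, fun _ _ _ => rfl⟩
  smul_mem' := by
    rintro c X ⟨h1, h2⟩
    exact ⟨Submodule.smul_mem _ c h1, fun s t hs => by rw [Matrix.smul_apply, h2 s t hs, smul_zero]⟩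

theorem mem_hh {A : Set B} {𝔤 : Submodule k (Matrix T T k)} {Z : Matrix T T k} :
    Z ∈ hh M A 𝔤 ↔ Z ∈ 𝔤 ∧ ∀ s t, M.blk s ∉ A → Z s t = 0 := Iff.rfl

/-- the operators on the summands in `A` given by these elements -/
noncomputable def ha (A : Set B) (𝔤 : Submodule k (Matrix T T k)) :
    Submodule k (∀ i : {b // b ∈ A}, End k (space k M.blk i.1)) :=
  (hh M A 𝔤).map (LinearMap.pi fun i => rs M.blk i.1)

variable {M}

theorem mem_ha {A : Set B} {𝔤 : Submodule k (Matrix T T k)}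
    {a : ∀ i : {b // b ∈ A}, End k (space k M.blk i.1)} :
    a ∈ ha M A 𝔤 ↔ ∃ Z ∈ hh M A 𝔤, ∀ i, rs M.blk i.1 Z = a i := by
  constructor
  · rintro ⟨Z, hZ, rfl⟩
    exact ⟨Z, hZ, fun i => rfl⟩
  · rintro ⟨Z, hZ, h⟩
    exact ⟨Z, hZ, funext h⟩

namespace LieHyp

variable {A : Set B} {𝔤 : Submodule k (Matrix T T k)}

theorem hh_ideal (H : LieHyp M A 𝔤) {X Z : Matrix T T k} (hX : X ∈ 𝔤) (hZ : Z ∈ hh M A 𝔤) :
    X * Z - Z * X ∈ hh M A 𝔤 := by
  refine ⟨H.brack X hX Z hZ.1, fun s t hs => ?_⟩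
  rw [Matrix.sub_apply, mul_apply, mul_apply, Finset.sum_eq_zero, Finset.sum_eq_zero, sub_zero]
  · intro r _
    rw [hZ.2 s r hs, zero_mul]
  · intro r _
    by_cases hr : M.blk s = M.blk r
    · rw [hZ.2 r t (by rw [← hr]; exact hs), mul_zero]
    · rw [H.block X hX s r hr, zero_mul]

theorem sp (H : LieHyp M A 𝔤) : ∀ a ∈ ha M A 𝔤, ∀ i, a i ∈ SpL (frm M k i.1) := by
  intro a ha' i
  obtain ⟨Z, hZ, h⟩ := mem_ha.1 ha'
  intro u v
  rw [← h i]
  have h1 := frm_rows (H.block Z hZ.1) (c := 0) (fun s t hs => by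
    rw [H.pol Z hZ.1 i.1 i.2 s t hs, hZ.2 M.o M.o H.noto, mul_zero]) u v
  rw [h1, zero_mul]

theorem br (H : LieHyp M A 𝔤) : ∀ a ∈ ha M A 𝔤, ∀ a' ∈ ha M A 𝔤,
    (fun i => a i * a' i - a' i * a i) ∈ ha M A 𝔤 := by
  intro a ha' a' ha''
  obtain ⟨Z, hZ, h⟩ := mem_ha.1 ha'
  obtain ⟨Z', hZ', h'⟩ := mem_ha.1 ha''
  refine mem_ha.2 ⟨_, H.hh_ideal hZ.1 hZ', fun i => ?_⟩
  rw [map_sub, rs_mul (H.block Z hZ.1) (H.block Z' hZ'.1), rs_mul (H.block Z' hZ'.1) (H.block Z hZ.1),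
    h, h']

theorem surj (H : LieHyp M A 𝔤) : ∀ i : {b // b ∈ A}, ∀ Y ∈ SpL (frm M k i.1),
    ∃ a ∈ ha M A 𝔤, a i = Y := by
  intro i Y hY
  obtain ⟨Z, hZ, h⟩ := H.proj i.1 i.2 (up Y) (fun s t h => up_maps Y s t h) (up_skew H.form.2 hY)
  have hZh : Z ∈ hh M A 𝔤 := by
    refine ⟨hZ, fun s t hs => ?_⟩
    rw [h s t (Or.inl hs)]
    by_contra h0
    exact hs (by rw [(up_maps Y s t h0).1]; exact i.2)
  refine ⟨_, mem_ha.2 ⟨Z, hZh, fun _ => rfl⟩, ?_⟩
  refine LinearMap.ext fun x => Subtype.ext (funext fun s => ?_)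
  rw [rs_coe (H.block Z hZ)]
  have h2 : (Y x : T → k) = up Y *ᵥ (x : T → k) := by rw [up_mulVec, pj_of_mem]
  rw [h2]
  by_cases hs : M.blk s = i.1
  · simp only [mulVec, dotProduct]
    exact Finset.sum_congr rfl fun t _ => by rw [h s t (Or.inr hs)]
  · rw [act_space (H.block Z hZ) x.2 s hs, ← h2]
    exact ((Y x).2 s hs).symm

theorem ne (H : LieHyp M A 𝔤) : ∀ i : {b // b ∈ A}, ∃ v : space k M.blk i.1, v ≠ 0 := by
  intro i
  obtain ⟨t, ht⟩ := H.ex i.1 i.2
  refine ⟨⟨Pi.single t 1, fun s hs => ?_⟩, fun h => ?_⟩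
  · rw [Pi.single_eq_of_ne]
    rintro rfl
    exact hs ht
  · have h1 := congrFun (congrArg Subtype.val h) t
    change (Pi.single t 1 : T → k) t = 0 at h1
    rw [Pi.single_eq_same] at h1
    exact one_ne_zero h1

/-- **The relation for a link.** -/
theorem link_rel (H : LieHyp M A 𝔤) {i j : {b // b ∈ A}}
    {g : space k M.blk j.1 →ₗ[k] space k M.blk i.1} (hg : Function.Bijective g) {c : k}
    (hga : ∀ a ∈ ha M A 𝔤, ∀ x, g (a j x) = a i (g x))
    (hform : ∀ x y, frm M k j.1 x y = c * frm M k i.1 (g x) (g y)) {X : Matrix T T k} (hX : X ∈ 𝔤) :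
    (2 : k) • (X * up g - up g * X) =
      (((M.wt i.1 - M.wt j.1 : ℤ) : k) * X M.o M.o) • up g := by
  have hXb := H.block X hX
  have halt := fun v : space k M.blk j.1 => frm_alt (H.alt j.1 j.2) v
  have hnd := fun (u : space k M.blk j.1) (hu : ∀ v, frm M k j.1 v u = 0) =>
    frm_nondeg H.form.1 H.form.2 u hu
  obtain ⟨G, hG⟩ : ∃ G : space k M.blk j.1 →ₗ[k] space k M.blk i.1,
      G = rs M.blk i.1 X ∘ₗ g - g ∘ₗ rs M.blk j.1 X := ⟨_, rfl⟩
  have hGx : ∀ x, G x = rs M.blk i.1 X (g x) - g (rs M.blk j.1 X x) := fun x => by rw [hG]; rfl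
  have hGa : ∀ a ∈ ha M A 𝔤, ∀ x, G (a j x) = a i (G x) := by
    intro a ha' x
    obtain ⟨Z, hZ, h⟩ := mem_ha.1 ha'
    have h1 := hga _ (mem_ha.2 ⟨_, H.hh_ideal hX hZ, fun _ => rfl⟩) x
    rw [map_sub, rs_mul hXb (H.block Z hZ.1), rs_mul (H.block Z hZ.1) hXb,
      map_sub, rs_mul hXb (H.block Z hZ.1), rs_mul (H.block Z hZ.1) hXb, h, h,
      LinearMap.sub_apply, LinearMap.sub_apply, Module.End.mul_apply, Module.End.mul_apply,
      Module.End.mul_apply, Module.End.mul_apply, map_sub, hga a ha', ← hga a ha' x] at h1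
    rw [hGx, hGx, map_sub, ← sub_eq_zero]
    have h2 := sub_eq_zero.2 h1
    rw [← neg_eq_zero] at h2
    rw [← h2, hga a ha' x]
    abel
  -- the quotient commutes with the symplectic Lie algebra
  let ge : space k M.blk j.1 ≃ₗ[k] space k M.blk i.1 := LinearEquiv.ofBijective g hg
  have hge : ∀ x, ge x = g x := fun _ => rfl
  obtain ⟨δ, hδ⟩ := H.ne j
  obtain ⟨l, hl⟩ := scalar_of_SpL (frm M k j.1) halt hnd (C := ge.symm.toLinearMap ∘ₗ G) (by
    intro Y hY x
    obtain ⟨a, ha', rfl⟩ := H.surj j Y hY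
    apply ge.injective
    rw [LinearMap.comp_apply, LinearMap.comp_apply, LinearEquiv.coe_coe,
      LinearEquiv.apply_symm_apply, hge, hga a ha', ← hge, LinearEquiv.apply_symm_apply,
      hGa a ha']) hδ
  have hGl : ∀ x, G x = l • g x := by
    intro x
    have h1 := congrArg ge (hl x)
    rw [LinearMap.comp_apply, LinearEquiv.coe_coe, LinearEquiv.apply_symm_apply, map_smul] at h1
    exact h1
  -- the multiplier
  obtain ⟨y, hy⟩ := exists_pair (frm M k j.1) halt hnd hδ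
  have e1 := frm_rows hXb (fun s t hs => H.pol X hX i.1 i.2 s t hs) (g δ) (g y)
  have e2 := frm_rows hXb (fun s t hs => H.pol X hX j.1 j.2 s t hs) δ y
  have e3 : ∀ x, rs M.blk i.1 X (g x) = l • g x + g (rs M.blk j.1 X x) := by
    intro x
    rw [← hGl, hGx, sub_add_cancel]
  rw [e3, e3, map_add, map_smul, map_add, LinearMap.add_apply, LinearMap.smul_apply, map_smul,
    smul_eq_mul] at e1
  rw [hform, hform, hform] at e2
  rw [hform] at hy
  have hlam : 2 * l = ((M.wt i.1 - M.wt j.1 : ℤ) : k) * X M.o M.o := by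
    push_cast
    have h1 : (2 * l - (M.wt i.1 - M.wt j.1) * X M.o M.o) * (c * frm M k i.1 (g δ) (g y)) = 0 := by
      linear_combination c * e1 - e2
    rw [hy, mul_one] at h1
    exact sub_eq_zero.1 h1
  rw [mul_up hXb, up_mul hXb, ← up_sub, ← hG]
  have h3 : G = l • g := LinearMap.ext hGl
  rw [h3, up_smul, smul_smul, hlam]

/-- the relation for the extension of the Lie algebra -/
theorem ext_rel {F : Type} [Field F] [CharZero F] [Algebra k F] {n : ℤ} {o : T} {G : Matrix T T k}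
    (h : ∀ X ∈ 𝔤, (2 : k) • (X * G - G * X) = ((n : k) * X o o) • G) :
    ∀ Θ ∈ extk F 𝔤, (2 : F) • (Θ * G.map (algebraMap k F) - G.map (algebraMap k F) * Θ) =
      ((n : F) * Θ o o) • G.map (algebraMap k F) := by
  intro Θ hΘ
  induction hΘ using Submodule.span_induction with
  | mem x hx =>
    obtain ⟨x, hx, rfl⟩ := hx
    have h1 := congrArg (fun Z : Matrix T T k => Z.map (algebraMap k F)) (h x hx)
    beta_reduce at h1
    have e1 : ∀ (c : k) (Z : Matrix T T k), (c • Z).map (algebraMap k F) =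
        algebraMap k F c • Z.map (algebraMap k F) := by
      intro c Z
      ext s t
      simp only [map_apply, Matrix.smul_apply, smul_eq_mul, map_mul]
    rw [e1, e1, Pool.Agent.H4.HW.map_sub', map_mul', map_mul', map_ofNat, map_mul,
      map_intCast] at h1
    exact h1
  | zero => simp
  | add x y _ _ h1 h2 =>
    rw [add_mul, mul_add, Matrix.add_apply, mul_add, add_smul, ← h1, ← h2, ← smul_add]
    congr 1
    abel
  | smul c x _ h1 =>
    rw [smul_mul_assoc, mul_smul_comm, ← smul_sub, smul_comm, h1, Matrix.smul_apply, smul_smul,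
      smul_eq_mul]
    congr 1
    ring

/-- the parity of the difference of the weights -/
theorem parity {F : Type} [Field F] [CharZero F] {Q G : Matrix T T F} {h : T → ℤ} {n : ℤ}
    (hQ : IsUnit Q.det) (hG : G ≠ 0)
    (hrel : (2 : F) • (Q * diagonal (fun t => (h t : F)) * Q⁻¹ * G -
      G * (Q * diagonal (fun t => (h t : F)) * Q⁻¹)) = (n : F) • G) :
    ∃ m : ℤ, 2 * m = n ∧ Q * diagonal (fun t => (h t : F)) * Q⁻¹ * G -
      G * (Q * diagonal (fun t => (h t : F)) * Q⁻¹) = m • G := by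
  have hQ1 : Q * Q⁻¹ = 1 := Matrix.mul_nonsing_inv _ hQ
  have hQ2 : Q⁻¹ * Q = 1 := Matrix.nonsing_inv_mul _ hQ
  obtain ⟨G', hG'⟩ : ∃ G' : Matrix T T F, G' = Q⁻¹ * G * Q := ⟨_, rfl⟩
  have hGG : G = Q * G' * Q⁻¹ := by
    rw [hG']
    calc G = (Q * Q⁻¹) * G * (Q * Q⁻¹) := by rw [hQ1, one_mul, mul_one]
      _ = _ := by noncomm_ring
  have hG0 : G' ≠ 0 := by
    intro h0
    apply hG
    rw [hGG, h0, mul_zero, zero_mul]
  obtain ⟨s, t, hst⟩ : ∃ s t, G' s t ≠ 0 := by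
    by_contra hcon
    push Not at hcon
    exact hG0 (Matrix.ext hcon)
  have h1 : (2 : F) • (diagonal (fun t => (h t : F)) * G' - G' * diagonal (fun t => (h t : F))) =
      (n : F) • G' := by
    have h2 := congrArg (fun Z => Q⁻¹ * Z * Q) hrel
    beta_reduce at h2
    rw [mul_smul_comm, smul_mul_assoc, mul_smul_comm, smul_mul_assoc, ← hG'] at h2
    rw [← h2]
    congr 1
    rw [hGG]
    calc diagonal (fun t => (h t : F)) * G' - G' * diagonal (fun t => (h t : F)) =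
        (Q⁻¹ * Q) * diagonal (fun t => (h t : F)) * (Q⁻¹ * Q) * G' * (Q⁻¹ * Q) -
        (Q⁻¹ * Q) * G' * (Q⁻¹ * Q) * diagonal (fun t => (h t : F)) * (Q⁻¹ * Q) := by
          rw [hQ2]; simp only [one_mul, mul_one]
      _ = _ := by noncomm_ring
  have h2 := congrFun (congrFun h1 s) t
  rw [Matrix.smul_apply, Matrix.sub_apply, diagonal_mul, mul_diagonal, Matrix.smul_apply,
    smul_eq_mul, smul_eq_mul] at h2
  have h3 : ((2 * (h s - h t) - n : ℤ) : F) * G' s t = 0 := by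
    push_cast
    linear_combination h2
  have h4 : 2 * (h s - h t) - n = 0 := by
    exact_mod_cast (mul_eq_zero.1 h3).resolve_right hst
  refine ⟨h s - h t, by omega, ?_⟩
  have h5 : n = 2 * (h s - h t) := by omega
  have h6 : (n : F) • G = (2 : F) • ((h s - h t) • G) := by
    rw [h5, ← Int.cast_smul_eq_zsmul F (h s - h t), smul_smul]
    push_cast
    rfl
  rw [h6] at hrel
  exact smul_right_injective _ (two_ne_zero (α := F)) hrel

/-- **The glueing.** The Lie algebra contains the symplectic Lie algebras of the summands. -/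
theorem glue (H : LieHyp M A 𝔤)
    (hno : ∀ i j : {b // b ∈ A}, i ≠ j → ∀ (g : space k M.blk j.1 →ₗ[k] space k M.blk i.1) (c : k),
      Function.Bijective g → c ≠ 0 → (∀ a ∈ ha M A 𝔤, ∀ x, g (a j x) = a i (g x)) →
      ¬ ∀ x y, frm M k j.1 x y = c * frm M k i.1 (g x) (g y))
    (b : B) (hb : b ∈ A) (X : Matrix T T k) (hX : M.ActsOn b X)
    (hsk : Xᵀ * M.EF k + M.EF k * X = 0) : X ∈ 𝔤 := by
  classical
  have hfin : Finite {b // b ∈ A} := by
    have h1 : A ⊆ Set.range M.blk := fun b hb => H.ex b hb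
    exact (Set.finite_range M.blk).subset h1
  let _ : Fintype {b // b ∈ A} := Fintype.ofFinite _
  have hXb : IsBlock M.blk X := by
    intro s t hst
    by_contra h0
    obtain ⟨h1, h2⟩ := hX s t h0
    exact hst (h1.trans h2.symm)
  have hXs : rs M.blk b X ∈ SpL (frm M k b) := by
    intro u v
    have h1 := frm_rows hXb (c := 0) (fun s t _ => by rw [hsk, zero_mul]; rfl) u v
    rw [h1, zero_mul]
  have h1 := goursat_sp (fun i : {b // b ∈ A} => frm M k i.1) (ha M A 𝔤)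
    (fun i v => frm_alt (H.alt i.1 i.2) v) (fun i u hu => frm_nondeg H.form.1 H.form.2 u hu)
    (fun a ha' i => H.sp a ha' i) (fun a ha' a' ha'' => H.br a ha' a' ha'') H.ne H.surj hno
    ⟨b, hb⟩ hXs
  obtain ⟨Z, hZ, h⟩ := mem_ha.1 h1
  have hZb := H.block Z hZ.1
  have hZX : Z = X := by
    ext s t
    by_cases hs : M.blk s ∈ A
    swap
    · rw [hZ.2 s t hs]
      by_contra h0
      exact hs (by rw [(hX s t fun h => h0 h.symm).1]; exact hb)
    by_cases ht : M.blk t = M.blk s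
    swap
    · rw [hZb s t (fun h => ht h.symm), hXb s t (fun h => ht h.symm)]
    have hm : (Pi.single t 1 : T → k) ∈ space k M.blk (M.blk s) := by
      intro r hr
      rw [Pi.single_eq_of_ne]
      rintro rfl
      exact hr ht
    have e1 := congrArg (fun Y : End k (space k M.blk (M.blk s)) => (Y ⟨_, hm⟩ : T → k) s)
      (h ⟨M.blk s, hs⟩)
    beta_reduce at e1
    rw [rs_coe hZb, mulVec_single'] at e1
    rw [e1]
    by_cases hsb : M.blk s = b
    · subst hsb
      rw [Pi.single_eq_same, rs_coe hXb, mulVec_single']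
    · rw [Pi.single_eq_of_ne]
      · by_contra h0
        exact hsb (hX s t fun h => h0 h.symm).1
      · intro h
        exact hsb (congrArg Subtype.val h)
  rw [← hZX]
  exact hZ.1

end LieHyp

end Pool.Agent.H20.TD
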