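import Mathlib
import Pool.Agent.H20.TD.Glue

/-!
# The structure of the Lie algebras
-/

set_option autoImplicit false
set_option linter.unusedSectionVars false

namespace Pool.Agent.H20.TD

open Matrix Pool.Agent.H4.HW Module Pool.Agent.Y114.MU Pool.Agent.Y114.TF Pool.Agent.H20.TB

variable {T B : Type} [Fintype T] [DecidableEq T] {M : Betti T B} {k : Type} [Field k] [CharZero k]
  {F : Type} [Field F] [CharZero F] [Algebra k F]

/-- the properties of the Lie algebras `mtLie M.D` and `Lie.sub ρ` -/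
structure Side (M : Betti T B) (S : Set B) (𝔤 : Submodule k (Matrix T T k)) (Q : Matrix T T F) :
    Prop where
  block : ∀ Z ∈ 𝔤, IsBlock M.blk Z
  brack : ∀ Z ∈ 𝔤, ∀ Z' ∈ 𝔤, Z * Z' - Z' * Z ∈ 𝔤
  pol : ∀ Z ∈ 𝔤, M.Pol S Z
  abs : ∀ b ∈ S, AbsIrr M.blk b 𝔤
  unitQ : IsUnit Q.det
  blkQ : IsBlock M.blk Q
  theta : Q * diagonal (fun t => (M.hdg t : F)) * Q⁻¹ ∈ extk F 𝔤

/-- the summands in `S` with alternating polarizations -/
def altS (M : Betti T B) (S : Set B) : Set B := {b | b ∈ S ∧ Alternating M b}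

/-- two summands are linked by a map which is compatible with the Lie algebra -/
def Linked (M : Betti T B) (𝔤 : Submodule k (Matrix T T k)) (b c : B) : Prop :=
  ∃ (G : Matrix T T k), MapsTo M b c G ∧ G ≠ 0 ∧
    (∀ X ∈ 𝔤, (2 : k) • (X * G - G * X) = (((M.wt b - M.wt c : ℤ) : k) * X M.o M.o) • G)

namespace Side

variable {S : Set B} {𝔤 : Submodule k (Matrix T T k)} {Q : Matrix T T F}

theorem theta_oo (H : Side M S 𝔤 Q) (hM : IsBetti M S) :
    (Q * diagonal (fun t => (M.hdg t : F)) * Q⁻¹) M.o M.o = 1 := by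
  rw [diag_oo H.unitQ H.blkQ hM.tate.1, hM.tate.2.1, Int.cast_one]

theorem cut (H : Side M S 𝔤 Q) (hM : IsBetti M S) {b : B} (hb : b ∈ S) {J : Set B} (hbJ : b ∈ J)
    (hJ : ∀ c ∈ J, c ≠ b → ¬ (Alternating M b ∧ c ∈ S ∧ Alternating M c)) (X : Matrix T T k)
    (hX : M.ActsOn b X) (hs : Xᵀ * M.EF k + M.EF k * X = 0) :
    ∃ Z ∈ 𝔤, pr k M.blk J * Z = X := by
  obtain ⟨v, hv⟩ := hM.isolated b hb
  obtain ⟨ε, hε, hsym⟩ := hv.sign
  refine core_cut (F := F) (ε := algebraMap ℚ k ε) (Q := Q) (h := fun t => (M.hdg t : F))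
    (w := (M.wt b : F)) (o₁ := v) hbJ ?_ (M.EF_block hM.form.2) (M.EF_unit hM.form.1) ?_ H.brack
    ?_ (H.abs b hb) H.blkQ H.unitQ H.theta ?_ hv.mem ?_ ?_ ?_ X hX hs
  · rcases hε with h1 | h1
    · left; rw [h1, map_one]
    · right; rw [h1, map_neg, map_one]
  · intro s t hs
    rw [Betti.EF, map_apply, map_apply, hsym s t hs, map_mul]
  · intro Z hZ
    exact ⟨M.wt b * Z M.o M.o, fun s t hs => H.pol Z hZ b hb s t hs⟩
  · intro s t hs
    have h1 := Betti.ext_pol H.pol _ H.theta b hb s t hs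
    rw [H.theta_oo hM, mul_one] at h1
    rw [M.EF_map]
    exact h1
  · intro t ht he
    exact hv.one t ht (by exact_mod_cast he)
  · intro r s t hr hs ht he
    rcases hv.isolated r s t hr hs ht (by exact_mod_cast he) with h | h | h
    · exact Or.inl h
    · exact Or.inr (Or.inl h)
    · right; right
      exact_mod_cast h
  · intro t r s ht hne hrs hr hrJ he
    exact hv.across r s t ht hne hrs hr (hJ _ hrJ hr) (by exact_mod_cast he)

theorem lieHyp (H : Side M S 𝔤 Q) (hM : IsBetti M S) : LieHyp M (altS M S) 𝔤 := by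
  refine ⟨hM.form, fun b hb => hb.2, ?_, fun h => hM.tate.2.2 h.1, H.block, H.brack,
    fun Z hZ b hb => H.pol Z hZ b hb.1, ?_⟩
  · intro b hb
    obtain ⟨v, hv⟩ := hM.isolated b hb.1
    exact ⟨v, hv.mem⟩
  · intro b hb X hX hs
    obtain ⟨Z, hZ, h⟩ := H.cut hM hb.1 (J := {c | c ∉ altS M S ∨ c = b}) (Or.inr rfl) (by
      rintro c (hc | hc) hcb ⟨_, h2, h3⟩
      · exact hc ⟨h2, h3⟩
      · exact hcb hc) X hX hs
    refine ⟨Z, hZ, fun s t hst => ?_⟩
    rw [← h, pr_mul_apply, if_pos]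
    exact hst

/-- **The structure of the Lie algebra.** -/
theorem str' (H : Side M S 𝔤 Q) (hM : IsBetti M S)
    (hno : ∀ i j : {b // b ∈ altS M S}, i ≠ j →
      ∀ (g : space k M.blk j.1 →ₗ[k] space k M.blk i.1) (c : k),
      Function.Bijective g → c ≠ 0 → (∀ a ∈ ha M (altS M S) 𝔤, ∀ x, g (a j x) = a i (g x)) →
      ¬ ∀ x y, frm M k j.1 x y = c * frm M k i.1 (g x) (g y)) : M.Str S 𝔤 := by
  refine ⟨H.block, H.pol, fun b hb X hX hs => ?_⟩
  by_cases hbA : b ∈ altS M S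
  · exact (H.lieHyp hM).glue hno b hbA X hX hs
  · obtain ⟨Z, hZ, h⟩ := H.cut hM hb (J := Set.univ) trivial (by
      rintro c _ _ ⟨h1, _⟩
      exact hbA ⟨hb, h1⟩) X hX hs
    have h1 : pr k M.blk Set.univ * Z = Z := by
      ext s t
      rw [pr_mul_apply, if_pos (Set.mem_univ _)]
    rw [h1] at h
    rw [← h]
    exact hZ

/-- **The structure of the Lie algebra.** -/
theorem str (H : Side M S 𝔤 Q) (hM : IsBetti M S)
    (hno : ∀ b ∈ altS M S, ∀ c ∈ altS M S, b ≠ c → ¬ Linked M 𝔤 b c) : M.Str S 𝔤 := by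
  refine H.str' hM ?_
  intro i j hij g c hg hc hga hform
  obtain ⟨δ, hδ⟩ := (H.lieHyp hM).ne j
  refine hno i.1 i.2 j.1 j.2 (fun h => hij (Subtype.ext h)) ⟨up g, ?_, ?_, ?_⟩
  · exact fun s t h => up_maps g s t h
  · exact up_ne_zero (x := δ) fun h => hδ (hg.1 (by rw [h, map_zero]))
  · intro X hX
    exact (H.lieHyp hM).link_rel hg hga hform hX

/-- linked summands have isomorphic Hodge structures -/
theorem link_theta (H : Side M S 𝔤 Q) (hM : IsBetti M S) {b c : B} {G : Matrix T T k} (hG : G ≠ 0)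
    (hrel : ∀ X ∈ 𝔤, (2 : k) • (X * G - G * X) =
      (((M.wt b - M.wt c : ℤ) : k) * X M.o M.o) • G) :
    ∃ m : ℤ, 2 * m = M.wt b - M.wt c ∧
      Q * diagonal (fun t => (M.hdg t : F)) * Q⁻¹ * G.map (algebraMap k F) -
      G.map (algebraMap k F) * (Q * diagonal (fun t => (M.hdg t : F)) * Q⁻¹) =
      m • G.map (algebraMap k F) := by
  have h1 := LieHyp.ext_rel (F := F) hrel _ H.theta
  rw [H.theta_oo hM, mul_one] at h1
  refine LieHyp.parity H.unitQ ?_ h1
  intro h0
  apply hG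
  ext s t
  have h2 := congrFun (congrFun h0 s) t
  rw [map_apply, Matrix.zero_apply] at h2
  rw [Matrix.zero_apply]
  exact (map_eq_zero _).1 h2

end Side

/-! ### The Lie algebra of the Mumford-Tate group -/

section hodge

variable {S : Set B} (hM : IsBetti M S)
include hM

/-- the Hodge operator satisfies the similitude equation -/
theorem pol_D : M.Pol S M.D := by
  intro b hb s t hs
  obtain ⟨v, hv⟩ := hM.isolated b hb
  rw [hv.polar s t hs]
  have h1 : M.D M.o M.o = 1 := by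
    rw [Betti.D, diag_oo hM.basis.1 hM.basis.2 hM.tate.1, hM.tate.2.1, Int.cast_one]
  rw [h1, mul_one]

theorem mt_simil : mtLie M.D ≤ M.simil S := by
  obtain ⟨r, c, Dk, hc, hD⟩ := exists_comp M.D
  refine mtLie_le ?_ ?_
  · rintro _ ⟨h1, h2⟩ _ ⟨h3, h4⟩
    refine ⟨?_, h2.brack M hM.tate.1 h1 h3 h4⟩
    intro s t hst
    rw [Matrix.sub_apply, (h1.mul h3) s t hst, (h3.mul h1) s t hst, sub_zero]
  · rw [hD]
    refine (mem_extk_iff hc _).2 fun k => ?_
    have h1 := M.D_block hM.basis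
    have h2 := pol_D hM
    rw [hD] at h1 h2
    exact M.comp_simil hc h1 h2 k

/-- the Lie algebra of the Mumford-Tate group is absolutely irreducible on `M_b` -/
theorem mt_absIrr {b : B} (hb : b ∈ S) : AbsIrr M.blk b (mtLie M.D) := by
  obtain ⟨v, hv⟩ := hM.isolated b hb
  obtain ⟨r, c, Dk, hc, hD⟩ := exists_comp M.D
  have hDk : ∀ k, Dk k ∈ mtLie M.D := by
    intro k
    rw [hD]
    exact comp_mem hc k
  refine ⟨fun Z hZ => (mt_simil hM hZ).1, ?_, ?_⟩
  · intro W hW hst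
    refine hv.simple W hW fun x hx => ?_
    have h1 : M.D *ᵥ (fun t => (x t : ℂ)) =
        ∑ k, c k • (fun t => (((Dk k) *ᵥ x) t : ℂ)) := by
      rw [hD]
      ext s
      simp only [mulVec, dotProduct, Matrix.sum_apply, Matrix.smul_apply, map_apply, smul_eq_mul,
        Finset.sum_apply, Pi.smul_apply]
      simp only [Finset.sum_mul]
      rw [Finset.sum_comm]
      refine Finset.sum_congr rfl fun k _ => ?_
      push_cast
      rw [Finset.mul_sum]
      refine Finset.sum_congr rfl fun t _ => ?_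
      show c k * ((Dk k s t : ℚ) : ℂ) * _ = _
      ring
    rw [h1]
    refine Submodule.sum_mem _ fun k _ => Submodule.smul_mem _ _ ?_
    exact Submodule.subset_span ⟨Dk k *ᵥ x, hst _ (hDk k) x hx, rfl⟩
  · intro C hC hcomm
    refine hv.trivialEnd C hC ?_
    rw [hD, Finset.mul_sum, Finset.sum_mul]
    refine Finset.sum_congr rfl fun k _ => ?_
    rw [mul_smul_comm, smul_mul_assoc, ← map_mul', ← map_mul', hcomm _ (hDk k)]

theorem mt_side : Side M S (mtLie M.D) M.P :=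
  ⟨fun X hX => (mt_simil hM hX).1, mtLie_brack M.D, fun X hX => (mt_simil hM hX).2,
    fun _ hb => mt_absIrr hM hb, hM.basis.1, hM.basis.2, mtLie_ext M.D⟩

/-- the Lie algebra of the Mumford-Tate group contains the skew operators of `M_b` -/
theorem mt_str : M.Str S (mtLie M.D) := by
  refine (mt_side hM).str hM ?_
  rintro b hb c hc hbc ⟨G, hG, hG0, hrel⟩
  obtain ⟨m, hm, h⟩ := (mt_side hM).link_theta hM hG0 hrel
  exact hG0 (hM.apart b hb.1 c hc.1 hbc hb.2 hc.2 m hm G hG h)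

end hodge

end Pool.Agent.H20.TD
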