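import Mathlib
import Pool.Agent.H20.TD.Side

/-!
# The Lie algebra of the image of the Galois group
-/

set_option autoImplicit false
set_option linter.unusedSectionVars false

namespace Pool.Agent.H20.TD

open Matrix Pool.Agent.H4.HW Module Pool.Agent.Y114.MU Pool.Agent.Y114.TF Pool.Agent.H20.TB

variable {T B : Type} [Fintype T] [DecidableEq T] {M : Betti T B}
  {ℓ : ℕ} [Fact ℓ.Prime] {Γ : Type} [Group Γ] [TopologicalSpace Γ] {S : Set B}
  {ρ : Γ →* Matrix T T ℚ_[ℓ]}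

theorem ell_pol (hM : IsBetti M S) (hρ : M.IsRealization S ρ) : ∀ Z ∈ Lie.sub ρ, M.Pol S Z := by
  intro Z hZ b hb s t hs
  exact Lie.polar ρ hM.tate.1 hρ.block (fun g s t hs => hρ.polar g b hb s t hs) Z hZ s t hs

theorem mul_oo (ho : ∀ t, M.blk t = M.blk M.o → t = M.o) {F : Type} [Field F] {A C : Matrix T T F}
    (hA : IsBlock M.blk A) : (A * C) M.o M.o = A M.o M.o * C M.o M.o := by
  rw [mul_apply, Finset.sum_eq_single M.o]
  · intro r _ hr
    rw [hA M.o r (fun h => hr (ho r h.symm)), zero_mul]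
  · intro h
    exact absurd (Finset.mem_univ _) h

theorem oo_mul (ho : ∀ t, M.blk t = M.blk M.o → t = M.o) (hb : ∀ g, IsBlock M.blk (ρ g)) (g h : Γ) :
    ρ (g * h) M.o M.o = ρ g M.o M.o * ρ h M.o M.o := by
  rw [map_mul, mul_oo ho (hb g)]

theorem oo_inv (ho : ∀ t, M.blk t = M.blk M.o → t = M.o) (hb : ∀ g, IsBlock M.blk (ρ g)) (g : Γ) :
    ρ g M.o M.o * ρ g⁻¹ M.o M.o = 1 := by
  rw [← oo_mul ho hb, mul_inv_cancel, map_one, Matrix.one_apply_eq]

theorem oo_ne (ho : ∀ t, M.blk t = M.blk M.o → t = M.o) (hb : ∀ g, IsBlock M.blk (ρ g)) (g : Γ) :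
    ρ g M.o M.o ≠ 0 := fun h => by
  have h1 := oo_inv ho hb g
  rw [h, zero_mul] at h1
  exact zero_ne_one h1

/-- the similitude equation for the group -/
theorem frm_group {F : Type} [Field F] [CharZero F] {b : B} {X : Matrix T T F}
    (hX : IsBlock M.blk X) {c : F}
    (h : ∀ s t, M.blk s = b → (Xᵀ * M.EF F * X) s t = c * M.EF F s t)
    (u v : space F M.blk b) :
    frm M F b (rs M.blk b X u) (rs M.blk b X v) = c * frm M F b u v := by
  rw [frm_apply, frm_apply, rs_coe hX, rs_coe hX]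
  have h1 : (X *ᵥ (u : T → F)) ⬝ᵥ M.EF F *ᵥ X *ᵥ (v : T → F) =
      (u : T → F) ⬝ᵥ (Xᵀ * M.EF F * X) *ᵥ (v : T → F) := by
    rw [← vecMul_transpose, ← dotProduct_mulVec, mulVec_mulVec, mulVec_mulVec, mul_assoc]
  rw [h1]
  simp only [dotProduct, mulVec]
  rw [Finset.mul_sum]
  refine Finset.sum_congr rfl fun s _ => ?_
  by_cases hs : M.blk s = b
  · rw [Finset.mul_sum, Finset.mul_sum, Finset.mul_sum]
    refine Finset.sum_congr rfl fun t _ => ?_
    rw [h s t hs]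
    ring
  · rw [u.2 s hs]
    ring

/-- a relation on an open subgroup -/
theorem open_of_sq [IsTopologicalGroup Γ] (ho : ∀ t, M.blk t = M.blk M.o → t = M.o)
    (hc : Continuous ρ) (hb : ∀ g, IsBlock M.blk (ρ g)) {G : Matrix T T ℚ_[ℓ]} (hG : G ≠ 0) (m : ℤ)
    (h : ∀ g, ρ g * G = (ρ g M.o M.o) ^ m • (G * ρ g) ∨
      ρ g * G = -(ρ g M.o M.o) ^ m • (G * ρ g)) :
    ∃ U : Subgroup Γ, IsOpen (U : Set Γ) ∧ ∀ g ∈ U, ρ g * G = (ρ g M.o M.o) ^ m • (G * ρ g) := by
  let U : Subgroup Γ :=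
    { carrier := {g | ρ g * G = (ρ g M.o M.o) ^ m • (G * ρ g)}
      mul_mem' := by
        intro g h hg hh
        change ρ g * G = _ at hg
        change ρ h * G = _ at hh
        change ρ (g * h) * G = _
        rw [oo_mul ho hb, mul_zpow, map_mul, mul_assoc, hh, mul_smul_comm, ← mul_assoc, hg,
          smul_mul_assoc, smul_smul, mul_assoc, mul_comm]
      one_mem' := by
        change ρ 1 * G = _
        rw [map_one, Matrix.one_apply_eq, _root_.one_zpow, one_smul, one_mul, mul_one]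
      inv_mem' := by
        intro g hg
        change ρ g * G = _ at hg
        change ρ g⁻¹ * G = _
        have h1 : ρ g⁻¹ * ρ g = 1 := by rw [← map_mul, inv_mul_cancel, map_one]
        have h2 : ρ g * ρ g⁻¹ = 1 := by rw [← map_mul, mul_inv_cancel, map_one]
        have h3 : G * ρ g⁻¹ = (ρ g M.o M.o) ^ m • (ρ g⁻¹ * G) := by
          calc G * ρ g⁻¹ = (ρ g⁻¹ * ρ g) * G * ρ g⁻¹ := by rw [h1, one_mul]
            _ = ρ g⁻¹ * (ρ g * G) * ρ g⁻¹ := by noncomm_ring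
            _ = (ρ g M.o M.o) ^ m • (ρ g⁻¹ * G * (ρ g * ρ g⁻¹)) := by
              rw [hg, mul_smul_comm, smul_mul_assoc]
              congr 1
              noncomm_ring
            _ = _ := by rw [h2, mul_one]
        rw [h3, smul_smul, ← mul_zpow, mul_comm (ρ g⁻¹ M.o M.o), oo_inv ho hb, _root_.one_zpow, one_smul] }
  refine ⟨U, ?_, fun g hg => hg⟩
  have hU : (U : Set Γ) = {g | ρ g * G = -(ρ g M.o M.o) ^ m • (G * ρ g)}ᶜ := by
    ext g
    constructor
    · intro hg hg'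
      change ρ g * G = _ at hg
      change ρ g * G = _ at hg'
      rw [hg, neg_smul] at hg'
      have h1 : (2 : ℚ_[ℓ]) • ((ρ g M.o M.o) ^ m • (G * ρ g)) = 0 := by
        rw [two_smul]
        exact add_eq_zero_iff_eq_neg.2 hg'
      have h2 := (smul_eq_zero.1 ((smul_eq_zero.1 h1).resolve_left two_ne_zero)).resolve_left
        (zpow_ne_zero _ (oo_ne ho hb g))
      have h3 : G = G * ρ g * ρ g⁻¹ := by
        rw [mul_assoc, ← map_mul, mul_inv_cancel, map_one, mul_one]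
      exact hG (by rw [h3, h2, zero_mul])
    · intro hg
      exact (h g).resolve_right hg
  rw [hU, isOpen_compl_iff]
  have hoo : Continuous fun g => (ρ g M.o M.o) ^ m := by
    refine Continuous.zpow₀ ?_ m fun g => Or.inl (oo_ne ho hb g)
    exact (continuous_apply_apply M.o M.o).comp hc
  exact isClosed_eq (hc.mul continuous_const) (hoo.neg.smul (continuous_const.mul hc))

theorem ell_side (hM : IsBetti M S) (hρ : M.IsRealization S ρ) (hT : ∀ b ∈ S, M.TateEnd b ρ)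
    [IsTopologicalGroup Γ] : ∃ Q : Matrix T T ℂ_[ℓ], Side M S (Lie.sub ρ) Q := by
  obtain ⟨Q, hQ1, hQ2, hQ3⟩ := hρ.sen
  exact ⟨Q, Lie.block ρ hρ.block, fun Z hZ Z' hZ' => Lie.brack ρ hZ hZ', ell_pol hM hρ,
    fun b hb => Lie.absIrr ρ hρ.continuous hρ.block ⟨(hT b hb).irreducible, (hT b hb).scalar⟩,
    hQ1, hQ2, hQ3⟩

theorem ell_hno [IsTopologicalGroup Γ] (hM : IsBetti M S) (hρ : M.IsRealization S ρ)
    (hT : ∀ b ∈ S, M.TateEnd b ρ) (hA : Apart M S ρ) (i j : {b // b ∈ altS M S}) (hij : i ≠ j)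
    (g : space ℚ_[ℓ] M.blk j.1 →ₗ[ℚ_[ℓ]] space ℚ_[ℓ] M.blk i.1) (c : ℚ_[ℓ])
    (hg : Function.Bijective g) (_ : c ≠ 0)
    (hga : ∀ a ∈ ha M (altS M S) (Lie.sub ρ), ∀ x, g (a j x) = a i (g x)) :
    ¬ ∀ x y, frm M ℚ_[ℓ] j.1 x y = c * frm M ℚ_[ℓ] i.1 (g x) (g y) := by
  intro hform
  obtain ⟨Q, HS⟩ := ell_side hM hρ hT
  have H := HS.lieHyp hM
  have hb := hρ.block
  have ho := hM.tate.1
  have halt := fun v : space ℚ_[ℓ] M.blk j.1 => frm_alt (H.alt j.1 j.2) v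
  have hnd := fun (u : space ℚ_[ℓ] M.blk j.1) (hu : ∀ v, frm M ℚ_[ℓ] j.1 v u = 0) =>
    frm_nondeg H.form.1 H.form.2 u hu
  obtain ⟨δ, hδ⟩ := H.ne j
  have hG0 : up g ≠ 0 := up_ne_zero (x := δ) fun h => hδ (hg.1 (by rw [h, map_zero]))
  -- the weights
  obtain ⟨m, hm, -⟩ := HS.link_theta hM hG0 fun X hX => H.link_rel hg hga hform hX
  let ge : space ℚ_[ℓ] M.blk j.1 ≃ₗ[ℚ_[ℓ]] space ℚ_[ℓ] M.blk i.1 := LinearEquiv.ofBijective g hg
  have hge : ∀ x, ge x = g x := fun _ => rfl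
  have hinv : ∀ (b : B) (s : Γ) (x : space ℚ_[ℓ] M.blk b),
      rs M.blk b (ρ s) (rs M.blk b (ρ s⁻¹) x) = x := by
    intro b s x
    refine Subtype.ext ?_
    rw [rs_coe (hb s), rs_coe (hb s⁻¹), mulVec_mulVec, ← map_mul, mul_inv_cancel, map_one,
      one_mulVec]
  have hinv' : ∀ (b : B) (s : Γ) (x : space ℚ_[ℓ] M.blk b),
      rs M.blk b (ρ s⁻¹) (rs M.blk b (ρ s) x) = x := by
    intro b s x
    refine Subtype.ext ?_
    rw [rs_coe (hb s⁻¹), rs_coe (hb s), mulVec_mulVec, ← map_mul, inv_mul_cancel, map_one,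
      one_mulVec]
  -- the character
  have hex : ∀ s : Γ, ∃ a : ℚ_[ℓ], ∀ x, rs M.blk i.1 (ρ s) (g x) = a • g (rs M.blk j.1 (ρ s) x) := by
    intro s
    obtain ⟨a, ha1⟩ := scalar_of_SpL (frm M ℚ_[ℓ] j.1) halt hnd
      (C := ge.symm.toLinearMap ∘ₗ rs M.blk i.1 (ρ s) ∘ₗ g ∘ₗ rs M.blk j.1 (ρ s⁻¹)) (by
      intro Y hY x
      obtain ⟨a, ha', rfl⟩ := H.surj j Y hY
      obtain ⟨Z, hZ, h⟩ := mem_ha.1 ha'
      apply ge.injective
      simp only [LinearMap.comp_apply, LinearEquiv.coe_coe, LinearEquiv.apply_symm_apply]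
      have hgea : ∀ z, ge (a j z) = a i (ge z) := fun z => by rw [hge, hga a ha', hge]
      rw [hgea, LinearEquiv.apply_symm_apply]
      -- the conjugate
      have hZ' : ρ s⁻¹ * Z * ρ s ∈ hh M (altS M S) (Lie.sub ρ) := by
        have h1 := Lie.conj_mem ρ hZ.1 s⁻¹
        rw [inv_inv] at h1
        refine ⟨h1, fun a c hac => ?_⟩
        have h2 : IsBlock M.blk (Z * ρ s) := (H.block Z hZ.1).mul (hb s)
        rw [mul_assoc, mul_apply]
        refine Finset.sum_eq_zero fun r _ => ?_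
        by_cases hr : M.blk a = M.blk r
        · have h3 : (Z * ρ s) r c = 0 := by
            rw [mul_apply]
            exact Finset.sum_eq_zero fun q _ => by
              rw [hZ.2 r q (by rw [← hr]; exact hac), zero_mul]
          rw [h3, mul_zero]
        · rw [hb s⁻¹ a r hr, zero_mul]
      have h1 := hga _ (mem_ha.2 ⟨_, hZ', fun _ => rfl⟩) (rs M.blk j.1 (ρ s⁻¹) x)
      have h2 : ∀ (b : {b // b ∈ altS M S}) (y : space ℚ_[ℓ] M.blk b.1),
          rs M.blk b.1 (ρ s⁻¹ * Z * ρ s) y = rs M.blk b.1 (ρ s⁻¹) (a b (rs M.blk b.1 (ρ s) y)) := by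
        intro b y
        rw [rs_mul ((hb s⁻¹).mul (H.block Z hZ.1)) (hb s), rs_mul (hb s⁻¹) (H.block Z hZ.1), h]
        rfl
      rw [h2, h2, hinv] at h1
      rw [h1, hinv]) hδ
    refine ⟨a, fun x => ?_⟩
    have h1 := congrArg ge (ha1 (rs M.blk j.1 (ρ s) x))
    simp only [LinearMap.comp_apply, LinearEquiv.coe_coe, LinearEquiv.apply_symm_apply,
      map_smul] at h1
    rw [hinv', hge] at h1
    exact h1
  -- the square of the character
  have hsq : ∀ (s : Γ) (a : ℚ_[ℓ]),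
      (∀ x, rs M.blk i.1 (ρ s) (g x) = a • g (rs M.blk j.1 (ρ s) x)) →
      a = (ρ s M.o M.o) ^ m ∨ a = -(ρ s M.o M.o) ^ m := by
    intro s a hs
    obtain ⟨y, hy⟩ := exists_pair (frm M ℚ_[ℓ] j.1) halt hnd hδ
    have e1 := frm_group (hb s) (fun a c h => hρ.polar s i.1 i.2.1 a c h) (g δ) (g y)
    have e2 := frm_group (hb s) (fun a c h => hρ.polar s j.1 j.2.1 a c h) δ y
    rw [hs, hs, map_smul, map_smul, LinearMap.smul_apply, smul_eq_mul, smul_eq_mul] at e1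
    rw [hform, hform] at e2
    rw [hform] at hy
    have hx := oo_ne ho hb s
    generalize ρ s M.o M.o = x at *
    have h1 : (a * a * x ^ M.wt j.1 - x ^ M.wt i.1) * (c * frm M ℚ_[ℓ] i.1 (g δ) (g y)) = 0 := by
      linear_combination c * e1 - a * a * e2
    rw [hy, mul_one, sub_eq_zero] at h1
    have h2 : M.wt i.1 = m + m + M.wt j.1 := by omega
    rw [h2, zpow_add₀ hx, zpow_add₀ hx] at h1
    have h3 := mul_right_cancel₀ (zpow_ne_zero _ hx) h1
    exact mul_self_eq_mul_self_iff.1 h3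
  obtain ⟨U, hU, hUG⟩ := open_of_sq ho hρ.continuous hb hG0 m (fun s => by
    obtain ⟨a, ha1⟩ := hex s
    have h1 : ρ s * up g = a • (up g * ρ s) := by
      rw [mul_up (hb s), up_mul (hb s), ← up_smul]
      congr 1
      exact LinearMap.ext ha1
    rcases hsq s a ha1 with h2 | h2
    · left; rw [h1, h2]
    · right; rw [h1, h2])
  exact hG0 (hA i.1 i.2.1 j.1 j.2.1 (fun h => hij (Subtype.ext h)) i.2.2 j.2.2 m hm U hU (up g)
    (fun s t h => up_maps g s t h) hUG)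

/-- **The structure of the Lie algebra of the image.** -/
theorem ell_str [IsTopologicalGroup Γ] (hM : IsBetti M S) (hρ : M.IsRealization S ρ)
    (hT : ∀ b ∈ S, M.TateEnd b ρ) (hA : Apart M S ρ) : M.Str S (Lie.sub ρ) := by
  obtain ⟨Q, HS⟩ := ell_side hM hρ hT
  exact HS.str' hM fun i j hij g c hg hc hga => ell_hno hM hρ hT hA i j hij g c hg hc hga

end Pool.Agent.H20.TD
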