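import Mathlib
import Pool.Agent.H20.TD.Ell
import Pool.Agent.H20.TC.Block
import Pool.Agent.H20.TC.Parts

/-!
# The theorem
-/

set_option autoImplicit false
set_option linter.unusedSectionVars false

namespace Pool.Agent.H20.TD

open Matrix Filter Topology Pool.Agent.H4.HW Pool.Agent.H20.TC
open scoped Matrix.Norms.Elementwise

variable {T B : Type} [Fintype T] [DecidableEq T] {M : Betti T B}
  {ℓ : ℕ} [Fact ℓ.Prime] {Γ : Type} [Group Γ] [TopologicalSpace Γ] {S : Set B}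
  {ρ : Γ →* Matrix T T ℚ_[ℓ]}

/-- the derivative of a homomorphism of twisted representations -/
theorem lie_hom [IsTopologicalGroup Γ] [CompactSpace Γ]
    (ho : ∀ t, M.blk t = M.blk M.o → t = M.o) (hc : Continuous ρ)
    (hb : ∀ g, IsBlock M.blk (ρ g)) {U : Subgroup Γ} (hU : IsOpen (U : Set Γ))
    {C : Matrix T T ℚ_[ℓ]} {m : ℤ} (h : ∀ g ∈ U, ρ g * C = (ρ g M.o M.o) ^ m • (C * ρ g)) :
    ∀ Z ∈ Lie.sub ρ, Z * C - C * Z = ((m : ℚ_[ℓ]) * Z M.o M.o) • C := by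
  intro Z hZ
  obtain ⟨σ, hσ⟩ := (Lie.mem_iff ρ Z).1 hZ
  obtain ⟨g, hg, he⟩ := Pool.Agent.NH56.HY.Cnv.lift ρ hc U hU U.one_mem σ hσ.lim
  have hσ' : Tendsto (fun k : ℕ => ((ℓ : ℚ_[ℓ]) ^ k)⁻¹ • (ρ (g k) - 1)) atTop (𝓝 Z) := by
    refine Tendsto.congr' ?_ hσ
    filter_upwards [he] with k hk
    rw [hk]
  have hD : Lie.D (fun k => ρ (g k)) Z := hσ'
  have hoo : Lie.Dn (fun k => ρ (g k) M.o M.o) (Z M.o M.o) := by
    have h3 := ((continuous_id.matrix_elem M.o M.o).tendsto _).comp hσ'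
    refine h3.congr fun k => ?_
    simp only [Function.comp_apply, id, Matrix.smul_apply, Matrix.sub_apply, Matrix.one_apply_eq,
      smul_eq_mul]
  have hz := hoo.zpow (fun k => oo_ne ho hb (g k)) m
  have h1 : Tendsto (fun k : ℕ => (((ℓ : ℚ_[ℓ]) ^ k)⁻¹ • (ρ (g k) - 1)) * C -
      C * (((ℓ : ℚ_[ℓ]) ^ k)⁻¹ • (ρ (g k) - 1))) atTop (𝓝 (Z * C - C * Z)) :=
    (hσ'.mul tendsto_const_nhds).sub (tendsto_const_nhds.mul hσ')
  have h2 : Tendsto (fun k : ℕ => (((ℓ : ℚ_[ℓ]) ^ k)⁻¹ * ((ρ (g k) M.o M.o) ^ m - 1)) •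
      (C * ρ (g k))) atTop (𝓝 (((m : ℚ_[ℓ]) * Z M.o M.o) • (C * 1))) :=
    Tendsto.smul hz (tendsto_const_nhds.mul hD.lim)
  rw [mul_one] at h2
  refine tendsto_nhds_unique h1 (h2.congr fun k => ?_)
  have h3 := h (g k) (hg k)
  have e : (ρ (g k) - 1) * C - C * (ρ (g k) - 1) =
      ((ρ (g k) M.o M.o) ^ m - 1) • (C * ρ (g k)) := by
    rw [sub_mul, mul_sub, h3, one_mul, mul_one, sub_smul, one_smul]
    abel
  rw [smul_mul_assoc, mul_smul_comm, ← smul_sub, e, smul_smul]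

/-- the extension of the Mumford-Tate Lie algebra contains no homomorphisms between different
summands -/
theorem apart_of [IsTopologicalGroup Γ] [CompactSpace Γ] (hM : IsBetti M S)
    (hρ : M.IsRealization S ρ) (h : ∀ Z ∈ mtLie M.D, Z.map (algebraMap ℚ ℚ_[ℓ]) ∈ Lie.sub ρ) :
    Apart M S ρ := by
  intro b hb c hc hbc hab hac m hm U hU C hC hUC
  have h1 := lie_hom hM.tate.1 hρ.continuous hρ.block hU hUC
  by_contra hne
  obtain ⟨s, t, hst⟩ : ∃ s t, C s t ≠ 0 := by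
    by_contra hcon
    push Not at hcon
    exact hne (Matrix.ext hcon)
  -- a rational functional
  obtain ⟨f, hf⟩ : ∃ f : ℚ_[ℓ] →ₗ[ℚ] ℚ, f (C s t) ≠ 0 := by
    by_contra hcon
    push Not at hcon
    exact hst ((Module.forall_dual_apply_eq_zero_iff ℚ (C s t)).1 hcon)
  obtain ⟨G, hG⟩ : ∃ G : Matrix T T ℚ, G = C.map f := ⟨_, rfl⟩
  have hG0 : G ≠ 0 := by
    intro h0
    apply hf
    have h2 := congrFun (congrFun h0 s) t
    rw [hG, map_apply] at h2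
    exact h2
  have hrel : ∀ X ∈ mtLie M.D, (2 : ℚ) • (X * G - G * X) =
      (((M.wt b - M.wt c : ℤ) : ℚ) * X M.o M.o) • G := by
    intro X hX
    have h2 := h1 _ (h X hX)
    have hsm : ∀ (q : ℚ) (x : ℚ_[ℓ]), f (algebraMap ℚ ℚ_[ℓ] q * x) = q * f x := by
      intro q x
      rw [← Algebra.smul_def, map_smul, smul_eq_mul]
    have h3 : X * G - G * X = ((m : ℚ) * X M.o M.o) • G := by
      ext a d
      have h4 := congrArg f (congrFun (congrFun h2 a) d)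
      rw [Matrix.sub_apply, mul_apply, mul_apply, map_sub, map_sum, map_sum, Matrix.smul_apply,
        smul_eq_mul] at h4
      rw [Matrix.sub_apply, mul_apply, mul_apply, Matrix.smul_apply, smul_eq_mul, hG]
      have h5 : ((m : ℚ_[ℓ]) * (X.map (algebraMap ℚ ℚ_[ℓ])) M.o M.o) =
          algebraMap ℚ ℚ_[ℓ] ((m : ℚ) * X M.o M.o) := by
        rw [map_apply, map_mul, map_intCast]
      rw [h5, hsm] at h4
      rw [map_apply, ← h4]
      congr 1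
      · refine Finset.sum_congr rfl fun r _ => ?_
        rw [map_apply, map_apply, hsm]
      · refine Finset.sum_congr rfl fun r _ => ?_
        rw [map_apply, map_apply, mul_comm, mul_comm (C a r), hsm]
    rw [h3, ← hm, smul_smul]
    congr 1
    push_cast
    ring
  obtain ⟨m', hm', hrel'⟩ := (mt_side hM).link_theta hM hG0 hrel
  refine hG0 (hM.apart b hb c hc hbc hab hac m' hm' G ?_ hrel')
  intro a d had
  refine hC a d fun h0 => had ?_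
  rw [hG, map_apply, h0, map_zero]

/-- the conjecture implies the Tate conjecture for endomorphisms -/
theorem tateEnd_of [IsTopologicalGroup Γ] [CompactSpace Γ] (hM : IsBetti M S)
    (hρ : M.IsRealization S ρ) (h : ∀ Z ∈ mtLie M.D, Z.map (algebraMap ℚ ℚ_[ℓ]) ∈ Lie.sub ρ) :
    ∀ b ∈ S, M.TateEnd b ρ := by
  intro b hb
  have habs := mt_absIrr hM hb
  refine ⟨fun W hW hst => ?_, fun U hU C hC hcomm => ?_⟩
  · refine habs.ext W hW fun Z hZ x hx => ?_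
    exact Lie.stable ρ W hst _ (h Z hZ) x hx
  · refine habs.comm_ext C hC fun Z hZ => ?_
    exact Lie.comm_open ρ hρ.continuous U hU hcomm _ (h Z hZ)

theorem mt_le_ext (hM : IsBetti M S) : M.Str S (extk ℚ_[ℓ] (mtLie M.D)) := by
  refine (mt_str hM).ext M hM.form.2 hM.form.1 fun b hb => ?_
  obtain ⟨v, hv⟩ := hM.isolated b hb
  exact hv.sign

variable [IsTopologicalGroup Γ] [CompactSpace Γ]

theorem main₁ [DecidablePred fun t => M.blk t ∈ Sᶜ] (hM : IsBetti M S)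
    (hρ : M.IsRealization S ρ) :
    MumfordTate M.D ρ ↔ (∀ b ∈ S, M.TateEnd b ρ) ∧ Apart M S ρ ∧
      MumfordTate (M.part Sᶜ M.D) (fun g => M.part Sᶜ (ρ g)) := by
  constructor
  · intro h
    have h0 : ∀ Z ∈ mtLie M.D, Z.map (algebraMap ℚ ℚ_[ℓ]) ∈ Lie.sub ρ := by
      intro Z hZ
      have h1 : Lie.sub ρ = extk ℚ_[ℓ] (mtLie M.D) := SetLike.coe_injective h
      rw [h1]
      exact extk_mem hZ
    exact ⟨tateEnd_of hM hρ h0, apart_of hM hρ h0,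
      Betti.mumfordTate_part _ hM.basis hρ.continuous hρ.block h⟩
  · rintro ⟨h1, hA, h2⟩
    have h3 : M.parts Sᶜ (Lie.sub ρ) = M.parts Sᶜ (extk ℚ_[ℓ] (mtLie M.D)) := by
      apply SetLike.coe_injective
      rw [← M.lie_part Sᶜ hρ.continuous hρ.block, ← M.parts_ext, ← M.mt_part Sᶜ hM.basis]
      exact h2
    have hs1 := ell_str hM hρ h1 hA
    have hs2 : M.Str S (extk ℚ_[ℓ] (mtLie M.D)) := mt_le_ext hM
    have h4 : Lie.sub ρ = extk ℚ_[ℓ] (mtLie M.D) :=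
      le_antisymm (hs1.le M hs2 hM.form.2 hM.tate.2.2 h3.le)
        (hs2.le M hs1 hM.form.2 hM.tate.2.2 h3.ge)
    exact congrArg (fun L : Submodule ℚ_[ℓ] (Matrix T T ℚ_[ℓ]) => (L : Set (Matrix T T ℚ_[ℓ]))) h4

theorem main₂ [DecidablePred fun t => M.blk t ∈ Sᶜ] (hM : IsBetti M S)
    (hρ : M.IsRealization S ρ) {𝔪 : Submodule ℚ (Matrix T T ℚ)} (hm : M.IsMotivic S ρ 𝔪) :
    Motivated M.D 𝔪 ρ ↔ (∀ b ∈ S, M.TateEnd b ρ) ∧ Apart M S ρ ∧
      Motivated (M.part Sᶜ M.D) (M.parts Sᶜ 𝔪) (fun g => M.part Sᶜ (ρ g)) := by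
  have hle : mtLie M.D ≤ 𝔪 := mtLie_le hm.bracket hm.hodge
  have hms : M.Str S 𝔪 := by
    refine ⟨hm.block, ?_, ?_⟩
    · intro X hX b hb s t hs
      rw [Betti.EF_rat]
      exact hm.polar X hX b hb s t hs
    · intro b hb X hX hsk
      exact hle ((mt_str hM).full b hb X hX hsk)
  constructor
  · rintro ⟨h1, h2⟩
    have h3 : MumfordTate M.D ρ := by
      show _ = _
      rw [← h2, h1]
    obtain ⟨h4, hA, h5⟩ := (main₁ hM hρ).1 h3
    refine ⟨h4, hA, ?_, ?_⟩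
    · rw [M.mt_part Sᶜ hM.basis, h1]
    · have h6 := h5
      rw [MumfordTate, M.mt_part Sᶜ hM.basis, h1] at h6
      exact h6.symm
  · rintro ⟨h1, hA, h2, h3⟩
    rw [M.mt_part Sᶜ hM.basis] at h2
    have h4 : mtLie M.D = 𝔪 :=
      le_antisymm hle (hms.le M (mt_str hM) hM.form.2 hM.tate.2.2 h2.ge)
    refine ⟨h4, ?_⟩
    have h5 : MumfordTate M.D ρ := by
      refine (main₁ hM hρ).2 ⟨h1, hA, ?_⟩
      rw [MumfordTate, ← h3, M.mt_part Sᶜ hM.basis, h4]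
    rw [← h4]
    exact h5.symm

/-- the conjecture for the Tate motive -/
theorem tate_part [DecidablePred fun t => M.blk t ∈ Sᶜ] (hM : IsBetti M S)
    (hρ : M.IsRealization S ρ) (hS : ∀ t, M.blk t ∈ S ∨ t = M.o) :
    MumfordTate (M.part Sᶜ M.D) (fun g => M.part Sᶜ (ρ g)) ∧
    mtLie (M.part Sᶜ M.D) = ⊤ := by
  have hN : ∀ j : {t // M.blk t ∈ Sᶜ}, j = ⟨M.o, hM.tate.2.2⟩ := by
    rintro ⟨j, hj⟩
    apply Subtype.ext
    rcases hS j with h | h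
    · exact absurd h hj
    · exact h
  have h1 : mtLie (M.part Sᶜ M.D) = ⊤ := by
    rw [M.mt_part Sᶜ hM.basis]
    refine Betti.eq_top_of hN ?_
    obtain ⟨X, hX, h0⟩ := Betti.entry_of (i := M.o) (mtLie_ext M.D) (by
      rw [Betti.D, diag_oo hM.basis.1 hM.basis.2 hM.tate.1, hM.tate.2.1, Int.cast_one]
      exact one_ne_zero)
    exact ⟨_, ⟨X, hX, rfl⟩, h0⟩
  refine ⟨?_, h1⟩
  have h2 : M.parts Sᶜ (Lie.sub ρ) = ⊤ := by
    refine Betti.eq_top_of hN ?_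
    obtain ⟨Q, hQ1, hQ2, hQ3⟩ := hρ.sen
    have hQ4 : Q * diagonal (fun t => (M.hdg t : ℂ_[ℓ])) * Q⁻¹ ∈
        extend ℂ_[ℓ] ((Lie.sub ρ : Submodule ℚ_[ℓ] (Matrix T T ℚ_[ℓ])) :
          Set (Matrix T T ℚ_[ℓ])) := hQ3
    obtain ⟨X, hX, h0⟩ := Betti.entry_of (i := M.o) hQ4 (by
      rw [diag_oo hQ1 hQ2 hM.tate.1, hM.tate.2.1, Int.cast_one]
      exact one_ne_zero)
    exact ⟨_, ⟨X, hX, rfl⟩, h0⟩
  rw [MumfordTate, M.lie_part Sᶜ hρ.continuous hρ.block, h2, h1]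
  have h3 : extend ℚ_[ℓ] ((⊤ : Submodule ℚ (Matrix {t // M.blk t ∈ Sᶜ} {t // M.blk t ∈ Sᶜ} ℚ)) :
      Set (Matrix {t // M.blk t ∈ Sᶜ} {t // M.blk t ∈ Sᶜ} ℚ)) = ⊤ := by
    refine Betti.eq_top_of hN ⟨(1 : Matrix {t // M.blk t ∈ Sᶜ} {t // M.blk t ∈ Sᶜ} ℚ).map
      (algebraMap ℚ ℚ_[ℓ]), Submodule.subset_span ⟨1, trivial, rfl⟩, ?_⟩
    rw [map_apply, Matrix.one_apply_eq, map_one]
    exact one_ne_zero
  rw [h3]

theorem main₃ [DecidablePred fun t => M.blk t ∈ Sᶜ] (hM : IsBetti M S)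
    (hρ : M.IsRealization S ρ) (hS : ∀ t, M.blk t ∈ S ∨ t = M.o) (hT : ∀ b ∈ S, M.TateEnd b ρ)
    (hA : Apart M S ρ) :
    MumfordTate M.D ρ ∧ ∀ 𝔪, M.IsMotivic S ρ 𝔪 → Motivated M.D 𝔪 ρ := by
  obtain ⟨h1, h2⟩ := tate_part hM hρ hS
  refine ⟨(main₁ hM hρ).2 ⟨hT, hA, h1⟩, ?_⟩
  intro 𝔪 hm
  refine (main₂ hM hρ hm).2 ⟨hT, hA, ?_, ?_⟩
  · rw [h2]
    symm
    rw [eq_top_iff, ← h2, M.mt_part Sᶜ hM.basis]
    rintro _ ⟨X, hX, rfl⟩
    exact ⟨X, mtLie_le hm.bracket hm.hodge hX, rfl⟩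
  · have h3 : M.parts Sᶜ 𝔪 = mtLie (M.part Sᶜ M.D) := by
      rw [h2, eq_top_iff, ← h2, M.mt_part Sᶜ hM.basis]
      rintro _ ⟨X, hX, rfl⟩
      exact ⟨X, mtLie_le hm.bracket hm.hodge hX, rfl⟩
    rw [h3]
    exact h1.symm

/-- **The theorem.** -/
theorem main (hM : IsBetti M S) (hρ : M.IsRealization S ρ)
    (h : ∀ b ∈ S, M.TateEnd b ρ ∨ IsControlled M ρ b) :
    (∀ b ∈ S, M.TateEnd b ρ) ∧
    (MumfordTate M.D ρ ↔ Apart M S ρ ∧ MTPart M Sᶜ ρ) ∧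
    (∀ 𝔪, M.IsMotivic S ρ 𝔪 → (Motivated M.D 𝔪 ρ ↔ Apart M S ρ ∧ MotPart M Sᶜ 𝔪 ρ)) ∧
    ((∀ t, M.blk t ∈ S ∨ t = M.o) → Apart M S ρ →
      ∀ J, MTPart M J ρ ∧ ∀ 𝔪, M.IsMotivic S ρ 𝔪 → MotPart M J 𝔪 ρ) := by
  let _ : DecidablePred fun t => M.blk t ∈ Sᶜ := fun _ => Classical.propDecidable _
  have h0 : ∀ b ∈ S, M.TateEnd b ρ := by
    intro b hb
    rcases h b hb with h1 | h1
    · exact h1
    · exact h1.tateEnd hM.form.1 hM.form.2 fun g => hρ.polar g b hb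
  refine ⟨h0, ⟨fun h1 => ((main₁ hM hρ).1 h1).2, fun h1 => (main₁ hM hρ).2 ⟨h0, h1⟩⟩,
    fun 𝔪 hm => ⟨fun h1 => ((main₂ hM hρ hm).1 h1).2,
      fun h1 => (main₂ hM hρ hm).2 ⟨h0, h1⟩⟩, fun hS hA => ?_⟩
  obtain ⟨h1, h2⟩ := main₃ hM hρ hS h0 hA
  refine fun J => ?_
  let _ : DecidablePred fun t => M.blk t ∈ J := fun _ => Classical.propDecidable _
  exact ⟨Betti.mumfordTate_part J hM.basis hρ.continuous hρ.block h1,
    fun 𝔪 hm => Betti.motivated_part J hM.basis hρ.continuous hρ.block (h2 𝔪 hm)⟩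

end Pool.Agent.H20.TD
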